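import Mathlib

/-!
# MP_5f3550_nt, local exceptional set: shared definitions

Plan (helper38).  `X` large, `R = √X`, `ϑ = R - ⌊R⌋`, first squares `a = ⌊R⌋ - j`, `J ≤ j < 2 J`.
In the variable `t = (Y - X) / √R` the values `a ^ 2 + b ^ 2` form (locally) an arithmetic
progression with period `Pj R ϑ j`.
-/

namespace MP5f3550

open Finset

/-- `q_j = (X - a ^ 2) / R` for `a = R - (j + ϑ)`. -/
noncomputable def qj (R ϑ : ℝ) (j : ℕ) : ℝ := 2 * (j + ϑ) - (j + ϑ) ^ 2 / R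

/-- The period of the `j`-th progression. -/
noncomputable def Pj (R ϑ : ℝ) (j : ℕ) : ℝ := 2 * Real.sqrt (qj R ϑ j)

/-- The index set of the frequencies `h / P_j`. -/
def Idx (J n : ℕ) : Finset (ℕ × ℕ) := Finset.Ico J (2 * J) ×ˢ Finset.Icc 1 n

/-- The frequency `h / P_j` of the index `(j, h)`. -/
noncomputable def freq (R ϑ : ℝ) (p : ℕ × ℕ) : ℝ := (p.2 : ℝ) / Pj R ϑ p.1

open Classical in
/-- Pairs of indices with frequencies at distance at most `1 / A`. -/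
noncomputable def Close (R ϑ A : ℝ) (J n : ℕ) : Finset ((ℕ × ℕ) × (ℕ × ℕ)) :=
  (Idx J n ×ˢ Idx J n).filter (fun p => |freq R ϑ p.1 - freq R ϑ p.2| ≤ 1 / A)

/-- Parabolic weights `(k + 1) (n - k)`, `0 ≤ k < n`. -/
noncomputable def cw (n : ℕ) (k : ℤ) : ℝ :=
  if 0 ≤ k ∧ k < n then ((k : ℝ) + 1) * ((n : ℝ) - k) else 0

/-- The weights of `p(x) (cos (2 π x) - γ)`. -/
noncomputable def dw (n : ℕ) (γ : ℝ) (k : ℤ) : ℝ :=
  (cw n (k - 1) + cw n (k + 1)) / 2 - γ * cw n k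

end MP5f3550
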