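import Pool.Agent.Lib.MP_5f3550_nt.Defs

/-!
# Row sq-B1: the sign of the minorant
`G(x) = ∑ d_k c_l cos (2 π (k - l) x) = |p(x)|² (cos (2 π x) - γ)`, `p(x) = ∑ c_k e(k x)`.
-/

namespace MP5f3550

open Finset

private theorem sqB1_cw_zero (n : ℕ) (k : ℤ) (h : k ∉ Finset.Ico (0 : ℤ) n) : cw n k = 0 := by
  have h' : ¬ (0 ≤ k ∧ k < (n : ℤ)) := fun hk => h (Finset.mem_Ico.2 hk)
  unfold cw
  rw [if_neg h']

private theorem sqB1_mid (n : ℕ) (f : ℤ → ℝ) :
    ∑ k ∈ Finset.Icc (-1 : ℤ) n, cw n k * f k = ∑ k ∈ Finset.Ico (0 : ℤ) n, cw n k * f k := by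
  symm
  apply Finset.sum_subset
  · intro k hk
    rw [Finset.mem_Ico] at hk
    rw [Finset.mem_Icc]
    omega
  · intro k _ hk
    rw [sqB1_cw_zero n k hk, zero_mul]

private theorem sqB1_up (n : ℕ) (f : ℤ → ℝ) :
    ∑ k ∈ Finset.Icc (-1 : ℤ) n, cw n (k - 1) * f k =
      ∑ k ∈ Finset.Icc (-1 : ℤ) n, cw n k * f (k + 1) := by
  rw [sqB1_mid n (fun k => f (k + 1))]
  have h1 : ∑ k ∈ Finset.Ico (1 : ℤ) (n + 1), cw n (k - 1) * f k =
      ∑ k ∈ Finset.Icc (-1 : ℤ) n, cw n (k - 1) * f k := by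
    apply Finset.sum_subset
    · intro k hk
      rw [Finset.mem_Ico] at hk
      rw [Finset.mem_Icc]
      omega
    · intro k _ hk
      rw [Finset.mem_Ico] at hk
      rw [sqB1_cw_zero n (k - 1), zero_mul]
      rw [Finset.mem_Ico]
      omega
  rw [← h1]
  refine Finset.sum_bij' (fun k _ => k - 1) (fun k _ => k + 1) ?_ ?_ ?_ ?_ ?_
  · intro k hk
    rw [Finset.mem_Ico] at hk ⊢
    omega
  · intro k hk
    rw [Finset.mem_Ico] at hk ⊢
    omega
  · intro k _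
    ring
  · intro k _
    ring
  · intro k _
    simp

private theorem sqB1_down (n : ℕ) (f : ℤ → ℝ) :
    ∑ k ∈ Finset.Icc (-1 : ℤ) n, cw n (k + 1) * f k =
      ∑ k ∈ Finset.Icc (-1 : ℤ) n, cw n k * f (k - 1) := by
  rw [sqB1_mid n (fun k => f (k - 1))]
  have h1 : ∑ k ∈ Finset.Ico (-1 : ℤ) (n - 1), cw n (k + 1) * f k =
      ∑ k ∈ Finset.Icc (-1 : ℤ) n, cw n (k + 1) * f k := by
    apply Finset.sum_subset
    · intro k hk
      rw [Finset.mem_Ico] at hk
      rw [Finset.mem_Icc]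
      omega
    · intro k _ hk
      rw [Finset.mem_Ico] at hk
      rw [sqB1_cw_zero n (k + 1), zero_mul]
      rw [Finset.mem_Ico]
      omega
  rw [← h1]
  refine Finset.sum_bij' (fun k _ => k + 1) (fun k _ => k - 1) ?_ ?_ ?_ ?_ ?_
  · intro k hk
    rw [Finset.mem_Ico] at hk ⊢
    omega
  · intro k hk
    rw [Finset.mem_Ico] at hk ⊢
    omega
  · intro k _
    ring
  · intro k _
    ring
  · intro k _
    simp

private theorem sqB1_inner (n : ℕ) (γ x : ℝ) (l : ℤ) :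
    ∑ k ∈ Finset.Icc (-1 : ℤ) n, dw n γ k * Real.cos (2 * Real.pi * ((k : ℝ) - l) * x) =
      (Real.cos (2 * Real.pi * x) - γ) *
        ∑ k ∈ Finset.Icc (-1 : ℤ) n, cw n k * Real.cos (2 * Real.pi * ((k : ℝ) - l) * x) := by
  have h1 : ∀ k : ℤ, dw n γ k * Real.cos (2 * Real.pi * ((k : ℝ) - l) * x) =
      1 / 2 * (cw n (k - 1) * Real.cos (2 * Real.pi * ((k : ℝ) - l) * x)) +
        1 / 2 * (cw n (k + 1) * Real.cos (2 * Real.pi * ((k : ℝ) - l) * x)) -
          γ * (cw n k * Real.cos (2 * Real.pi * ((k : ℝ) - l) * x)) := by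
    intro k
    unfold dw
    ring
  rw [Finset.sum_congr rfl fun k _ => h1 k, Finset.sum_sub_distrib, Finset.sum_add_distrib,
    ← Finset.mul_sum, ← Finset.mul_sum, ← Finset.mul_sum,
    sqB1_up n (fun k => Real.cos (2 * Real.pi * ((k : ℝ) - l) * x)),
    sqB1_down n (fun k => Real.cos (2 * Real.pi * ((k : ℝ) - l) * x)),
    Finset.mul_sum, Finset.mul_sum, Finset.mul_sum, ← Finset.sum_add_distrib,
    ← Finset.sum_sub_distrib, Finset.mul_sum]
  refine Finset.sum_congr rfl fun k _ => ?_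
  have h2 : Real.cos (2 * Real.pi * (((k + 1 : ℤ) : ℝ) - l) * x) =
      Real.cos (2 * Real.pi * ((k : ℝ) - l) * x) * Real.cos (2 * Real.pi * x) -
        Real.sin (2 * Real.pi * ((k : ℝ) - l) * x) * Real.sin (2 * Real.pi * x) := by
    rw [← Real.cos_add]
    congr 1
    push_cast
    ring
  have h3 : Real.cos (2 * Real.pi * (((k - 1 : ℤ) : ℝ) - l) * x) =
      Real.cos (2 * Real.pi * ((k : ℝ) - l) * x) * Real.cos (2 * Real.pi * x) +
        Real.sin (2 * Real.pi * ((k : ℝ) - l) * x) * Real.sin (2 * Real.pi * x) := by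
    rw [← Real.cos_sub]
    congr 1
    push_cast
    ring
  rw [h2, h3]
  ring

private theorem sqB1_norm (n : ℕ) (x : ℝ) :
    ‖∑ l ∈ Finset.Icc (-1 : ℤ) n,
        (cw n l : ℂ) * Complex.exp (2 * Real.pi * Complex.I * l * x)‖ ^ 2 =
      ∑ l ∈ Finset.Icc (-1 : ℤ) n, ∑ k ∈ Finset.Icc (-1 : ℤ) n,
        cw n l * (cw n k * Real.cos (2 * Real.pi * ((k : ℝ) - l) * x)) := by
  have h1 : ∀ l : ℤ, (cw n l : ℂ) * Complex.exp (2 * Real.pi * Complex.I * l * x) =
      ((cw n l * Real.cos (2 * Real.pi * l * x) : ℝ) : ℂ) +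
        ((cw n l * Real.sin (2 * Real.pi * l * x) : ℝ) : ℂ) * Complex.I := by
    intro l
    have h2 : (2 * Real.pi * Complex.I * l * x : ℂ) =
        ((2 * Real.pi * l * x : ℝ) : ℂ) * Complex.I := by
      push_cast
      ring
    rw [h2, Complex.exp_mul_I]
    push_cast
    ring
  rw [Finset.sum_congr rfl fun l _ => h1 l, Finset.sum_add_distrib, ← Finset.sum_mul,
    ← Complex.ofReal_sum, ← Complex.ofReal_sum, ← Complex.normSq_eq_norm_sq,
    Complex.normSq_add_mul_I, pow_two, pow_two, Finset.sum_mul_sum, Finset.sum_mul_sum,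
    ← Finset.sum_add_distrib]
  refine Finset.sum_congr rfl fun l _ => ?_
  rw [← Finset.sum_add_distrib]
  refine Finset.sum_congr rfl fun k _ => ?_
  have h3 : Real.cos (2 * Real.pi * ((k : ℝ) - l) * x) =
      Real.cos (2 * Real.pi * k * x) * Real.cos (2 * Real.pi * l * x) +
        Real.sin (2 * Real.pi * k * x) * Real.sin (2 * Real.pi * l * x) := by
    rw [← Real.cos_sub]
    congr 1
    ring
  rw [h3]
  ring

/-- Expand `|p|² (cos 2πx - γ) = Re (q p̄)` with `q = p · (e(x)/2 + e(-x)/2 - γ) = ∑ d_k e(k x)`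
(shift the sums; `cw n` vanishes outside `0 ≤ k < n`, so all sums can be taken over
`Icc (-1) n`). -/
theorem minorant_identity (n : ℕ) (γ x : ℝ) :
    ∑ k ∈ Finset.Icc (-1 : ℤ) n, ∑ l ∈ Finset.Icc (-1 : ℤ) n,
      dw n γ k * cw n l * Real.cos (2 * Real.pi * ((k : ℝ) - l) * x)
    = ‖∑ l ∈ Finset.Icc (-1 : ℤ) n,
        (cw n l : ℂ) * Complex.exp (2 * Real.pi * Complex.I * l * x)‖ ^ 2
      * (Real.cos (2 * Real.pi * x) - γ) := by
  rw [sqB1_norm, Finset.sum_comm, Finset.sum_mul]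
  refine Finset.sum_congr rfl fun l _ => ?_
  have h1 : ∑ k ∈ Finset.Icc (-1 : ℤ) n,
      dw n γ k * cw n l * Real.cos (2 * Real.pi * ((k : ℝ) - l) * x) =
      cw n l * ∑ k ∈ Finset.Icc (-1 : ℤ) n,
        dw n γ k * Real.cos (2 * Real.pi * ((k : ℝ) - l) * x) := by
    rw [Finset.mul_sum]
    refine Finset.sum_congr rfl fun k _ => ?_
    ring
  rw [h1, sqB1_inner, ← Finset.mul_sum]
  ring

/-- If `x` has distance at least `Δ` from every integer then `cos (2 π x) ≤ cos (2 π Δ)`. -/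
theorem cos_le_of_dist (Δ x : ℝ) (h0 : 0 < Δ) (h1 : Δ ≤ 1 / 2)
    (hx : ∀ k : ℤ, Δ ≤ |x - k|) :
    Real.cos (2 * Real.pi * x) ≤ Real.cos (2 * Real.pi * Δ) := by
  have h2 : |x - round x| ≤ 1 / 2 := abs_sub_round x
  have h3 : Δ ≤ |x - round x| := hx (round x)
  have h4 : Real.cos (2 * Real.pi * x) = Real.cos (2 * Real.pi * |x - round x|) := by
    have h5 : Real.cos (2 * Real.pi * |x - round x|) = Real.cos (2 * Real.pi * (x - round x)) := by
      rw [← Real.cos_abs (2 * Real.pi * (x - round x)), abs_mul,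
        abs_of_nonneg (by positivity : (0 : ℝ) ≤ 2 * Real.pi)]
    rw [h5]
    have h6 : 2 * Real.pi * (x - round x) = 2 * Real.pi * x - (round x : ℝ) * (2 * Real.pi) := by
      ring
    rw [h6, Real.cos_sub_int_mul_two_pi]
  rw [h4]
  have hpi := Real.pi_pos
  apply Real.cos_le_cos_of_nonneg_of_le_pi
  · positivity
  · nlinarith
  · nlinarith

/-- The two facts together. -/
theorem minorant_sign (n : ℕ) (Δ x : ℝ) (h0 : 0 < Δ) (h1 : Δ ≤ 1 / 2)
    (hx : ∀ k : ℤ, Δ ≤ |x - k|) :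
    ∑ k ∈ Finset.Icc (-1 : ℤ) n, ∑ l ∈ Finset.Icc (-1 : ℤ) n,
      dw n (Real.cos (2 * Real.pi * Δ)) k * cw n l *
        Real.cos (2 * Real.pi * ((k : ℝ) - l) * x) ≤ 0 := by
  rw [minorant_identity]
  exact mul_nonpos_of_nonneg_of_nonpos (by positivity)
    (sub_nonpos.2 (cos_le_of_dist Δ x h0 h1 hx))

end MP5f3550
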