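import Pool.Agent.Lib.MP_5f3550_nt.Defs

/-!
# Row sq-B2: the mean value of the minorant
-/

namespace MP5f3550

open Finset

theorem sqB2_range (n : ℕ) (F : ℤ → ℝ) (h1 : F (-1) = 0) (h2 : F n = 0) :
    ∑ k ∈ Finset.Icc (-1 : ℤ) n, F k = ∑ i ∈ Finset.range n, F (i : ℤ) := by
  have h3 : ∑ k ∈ Finset.Icc (-1 : ℤ) n, F k
      = ∑ k ∈ (Finset.range n).map ⟨fun i : ℕ => (i : ℤ), Nat.cast_injective⟩, F k := by
    symm
    apply Finset.sum_subset
    · intro k hk
      rw [Finset.mem_map] at hk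
      obtain ⟨i, hi, rfl⟩ := hk
      rw [Finset.mem_range] at hi
      rw [Finset.mem_Icc]
      simp only [Function.Embedding.coeFn_mk]
      omega
    · intro k hk hn
      rw [Finset.mem_Icc] at hk
      by_cases ha : k = -1
      · rw [ha, h1]
      · by_cases hb : k = n
        · rw [hb, h2]
        · exfalso
          apply hn
          rw [Finset.mem_map]
          refine ⟨k.toNat, ?_, ?_⟩
          · rw [Finset.mem_range]
            omega
          · simp only [Function.Embedding.coeFn_mk]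
            omega
  rw [h3, Finset.sum_map]
  rfl

theorem sqB2_cw (n i : ℕ) (hi : i < n) : cw n (i : ℤ) = ((i : ℝ) + 1) * ((n : ℝ) - i) := by
  unfold cw
  rw [if_pos ⟨by omega, by omega⟩]
  push_cast
  ring

theorem sqB2_cw_neg (n : ℕ) : cw n (-1) = 0 := by
  unfold cw
  rw [if_neg (by omega)]

theorem sqB2_cw_top (n : ℕ) : cw n (n : ℤ) = 0 := by
  unfold cw
  rw [if_neg (by omega)]

theorem sqB2_partial (N : ℝ) (m : ℕ) : ∑ i ∈ Finset.range m, ((i : ℝ) + 1) * (N - i) =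
    N * m + (N - 1) * (m * (m - 1)) / 2 - (m - 1) * m * (2 * m - 1) / 6 := by
  induction m with
  | zero => simp
  | succ m ih =>
    rw [Finset.sum_range_succ, ih]
    push_cast
    ring

/-- `∑ c_k = n (n + 1) (n + 2) / 6`. -/
theorem sum_cw (n : ℕ) :
    ∑ k ∈ Finset.Icc (-1 : ℤ) n, cw n k = (n : ℝ) * (n + 1) * (n + 2) / 6 := by
  rw [sqB2_range n (cw n) (sqB2_cw_neg n) (sqB2_cw_top n),
    Finset.sum_congr rfl fun i hi => sqB2_cw n i (Finset.mem_range.1 hi), sqB2_partial]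
  ring

theorem sqB2_dw (n i : ℕ) (γ : ℝ) (hi : i < n) :
    dw n γ (i : ℤ) = (1 - γ) * cw n (i : ℤ) - 1 := by
  unfold dw
  have h0 := sqB2_cw n i hi
  have h1 : cw n ((i : ℤ) - 1) = (i : ℝ) * ((n : ℝ) - i + 1) := by
    unfold cw
    by_cases h : i = 0
    · subst h
      rw [if_neg (by simp)]
      simp
    · rw [if_pos ⟨by omega, by omega⟩]
      push_cast
      ring
  have h2 : cw n ((i : ℤ) + 1) = ((i : ℝ) + 2) * ((n : ℝ) - i - 1) := by
    unfold cw
    by_cases h : i + 1 = n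
    · rw [if_neg (by omega)]
      have : (n : ℝ) = i + 1 := by rw [← h]; push_cast; ring
      rw [this]
      ring
    · rw [if_pos ⟨by omega, by omega⟩]
      push_cast
      ring
  rw [h0, h1, h2]
  ring

/-- The mean value `∑ d_k c_k` is at least `∑ c_k`: inside `0 ≤ k < n` one has
`d_k = (1 - γ) c_k - 1`, and `∑ c_k ^ 2 ≥ (∑ c_k) ^ 2 / n`. -/
theorem mean_lower (n : ℕ) (γ : ℝ) (hn : 1 ≤ n) (hγ : γ ≤ 1)
    (h : 12 ≤ (1 - γ) * (n + 1) * (n + 2)) :
    (n : ℝ) * (n + 1) * (n + 2) / 6 ≤ ∑ k ∈ Finset.Icc (-1 : ℤ) n, dw n γ k * cw n k := by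
  have hS : ∑ i ∈ Finset.range n, cw n (i : ℤ) = (n : ℝ) * (n + 1) * (n + 2) / 6 := by
    rw [← sum_cw n, sqB2_range n (cw n) (sqB2_cw_neg n) (sqB2_cw_top n)]
  have h1 : ∑ k ∈ Finset.Icc (-1 : ℤ) n, dw n γ k * cw n k =
      (1 - γ) * ∑ i ∈ Finset.range n, cw n (i : ℤ) ^ 2 - ∑ i ∈ Finset.range n, cw n (i : ℤ) := by
    rw [sqB2_range n (fun k => dw n γ k * cw n k) (by simp [sqB2_cw_neg])
      (by simp [sqB2_cw_top]), Finset.mul_sum, ← Finset.sum_sub_distrib]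
    apply Finset.sum_congr rfl
    intro i hi
    rw [sqB2_dw n i γ (Finset.mem_range.1 hi)]
    ring
  have hcs := sq_sum_le_card_mul_sum_sq (s := Finset.range n) (f := fun i : ℕ => cw n (i : ℤ))
  rw [Finset.card_range] at hcs
  rw [h1, hS]
  rw [hS] at hcs
  set Q := ∑ i ∈ Finset.range n, cw n (i : ℤ) ^ 2 with hQ
  have hn' : (1 : ℝ) ≤ n := by exact_mod_cast hn
  set S := (n : ℝ) * (n + 1) * (n + 2) / 6 with hSd
  have hS0 : 0 < S := by rw [hSd]; positivity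
  -- (1 - γ) S ≥ 2 n
  have h2 : 2 * (n : ℝ) ≤ (1 - γ) * S := by
    have h3 : (n : ℝ) * 12 ≤ n * ((1 - γ) * (n + 1) * (n + 2)) :=
      mul_le_mul_of_nonneg_left h (by linarith)
    rw [hSd]
    nlinarith [h3]
  have h4 : (n : ℝ) * (2 * S) ≤ n * ((1 - γ) * Q) := by
    calc (n : ℝ) * (2 * S) = 2 * n * S := by ring
      _ ≤ (1 - γ) * S * S := mul_le_mul_of_nonneg_right h2 hS0.le
      _ = (1 - γ) * S ^ 2 := by ring
      _ ≤ (1 - γ) * (n * Q) := mul_le_mul_of_nonneg_left hcs (by linarith)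
      _ = n * ((1 - γ) * Q) := by ring
  have h5 : 2 * S ≤ (1 - γ) * Q := le_of_mul_le_mul_left h4 (by linarith)
  linarith

end MP5f3550
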