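import Pool.Agent.Lib.MP_5f3550_nt.Defs

/-!
# Row sq-B2b: the size of the coefficients of the minorant
-/

namespace MP5f3550

open Finset

private theorem sqB2b_in {n : ℕ} {k : ℤ} (h0 : 0 ≤ k) (h1 : k < n) :
    cw n k = ((k : ℝ) + 1) * ((n : ℝ) - k) := if_pos ⟨h0, h1⟩

private theorem sqB2b_out {n : ℕ} {k : ℤ} (h : k < 0 ∨ (n : ℤ) ≤ k) : cw n k = 0 :=
  if_neg (by omega)

private theorem sqB2b_nonneg (n : ℕ) (k : ℤ) : 0 ≤ cw n k := by
  by_cases h : 0 ≤ k ∧ k < n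
  · rw [sqB2b_in h.1 h.2]
    have h0 : (0 : ℝ) ≤ k := by exact_mod_cast h.1
    have h1 : (k : ℝ) < n := by exact_mod_cast h.2
    exact mul_nonneg (by linarith) (by linarith)
  · rw [sqB2b_out (by omega)]

private theorem sqB2b_le (n : ℕ) (k : ℤ) : cw n k ≤ ((n : ℝ) + 1) ^ 2 / 4 := by
  by_cases h : 0 ≤ k ∧ k < n
  · rw [sqB2b_in h.1 h.2]
    nlinarith [sq_nonneg (((k : ℝ) + 1) - ((n : ℝ) - k))]
  · rw [sqB2b_out (by omega)]
    positivity

private theorem sqB2b_dw {n : ℕ} (γ : ℝ) {k : ℤ} (h0 : 0 ≤ k) (h1 : k < n) :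
    dw n γ k = (1 - γ) * cw n k - 1 := by
  have e1 : cw n (k - 1) = (k : ℝ) * ((n : ℝ) - k + 1) := by
    by_cases h : 0 ≤ k - 1
    · rw [sqB2b_in h (by omega)]
      push_cast
      ring
    · have : k = 0 := by omega
      subst this
      rw [sqB2b_out (by omega)]
      simp
  have e2 : cw n (k + 1) = ((k : ℝ) + 2) * ((n : ℝ) - k - 1) := by
    by_cases h : k + 1 < n
    · rw [sqB2b_in (by omega) h]
      push_cast
      ring
    · have : (n : ℤ) = k + 1 := by omega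
      have h2 : (n : ℝ) = k + 1 := by exact_mod_cast this
      rw [sqB2b_out (by omega), h2]
      ring
  rw [dw, e1, e2, sqB2b_in h0 h1]
  ring

private theorem sqB2b_bound {n : ℕ} {γ : ℝ} (hn : 1 ≤ n) (hγ : γ ≤ 1)
    (h : (1 - γ) * (n + 1) ^ 2 ≤ 180) (k : ℤ) :
    |dw n γ k| ≤ 46 + (if k = -1 then (n : ℝ) / 2 else 0) + (if k = n then (n : ℝ) / 2 else 0) := by
  have hn0 : (0 : ℝ) ≤ n := Nat.cast_nonneg n
  have p1 : (0 : ℝ) ≤ if k = -1 then (n : ℝ) / 2 else 0 := by split_ifs <;> positivity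
  have p2 : (0 : ℝ) ≤ if k = n then (n : ℝ) / 2 else 0 := by split_ifs <;> positivity
  by_cases hk : 0 ≤ k ∧ k < n
  · rw [sqB2b_dw γ hk.1 hk.2]
    have h1 := sqB2b_nonneg n k
    have h2 := sqB2b_le n k
    have h3 : 0 ≤ (1 - γ) * cw n k := mul_nonneg (by linarith) h1
    have h4 : (1 - γ) * cw n k ≤ 45 := by
      have := mul_le_mul_of_nonneg_left h2 (by linarith : 0 ≤ 1 - γ)
      linarith
    have h5 : |(1 - γ) * cw n k - 1| ≤ 46 := by
      rw [abs_le]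
      constructor <;> linarith
    linarith
  · by_cases hk1 : k = -1
    · subst hk1
      have e : dw n γ (-1) = n / 2 := by
        rw [dw, sqB2b_out (by omega), sqB2b_in (k := -1 + 1) (by omega) (by omega),
          sqB2b_out (k := -1) (by omega)]
        push_cast
        ring
      rw [e, if_pos rfl, abs_of_nonneg (by positivity)]
      linarith
    · by_cases hk2 : k = n
      · subst hk2
        have e : dw n γ n = n / 2 := by
          rw [dw, sqB2b_in (k := (n : ℤ) - 1) (by omega) (by omega),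
            sqB2b_out (k := (n : ℤ) + 1) (by omega), sqB2b_out (k := (n : ℤ)) (by omega)]
          push_cast
          ring
        rw [e, if_pos rfl, abs_of_nonneg (by positivity)]
        linarith
      · have e : dw n γ k = 0 := by
          rw [dw, sqB2b_out (k := k - 1) (by omega), sqB2b_out (k := k + 1) (by omega),
            sqB2b_out (k := k) (by omega)]
          ring
        rw [e, abs_zero]
        linarith

private theorem sqB2b_range (n N : ℕ) :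
    ∑ k ∈ range N, ((k : ℝ) + 1) * ((n : ℝ) - k) =
      (N : ℝ) * (N + 1) * (3 * n - 2 * N + 2) / 6 := by
  induction N with
  | zero => simp
  | succ N ih =>
    rw [sum_range_succ, ih]
    push_cast
    ring

private theorem sqB2b_sum (n : ℕ) :
    ∑ k ∈ Icc (-1 : ℤ) n, cw n k = (n : ℝ) * (n + 1) * (n + 2) / 6 := by
  have hsub : (range n).image (fun k : ℕ => (k : ℤ)) ⊆ Icc (-1 : ℤ) n := by
    intro k hk
    rw [mem_image] at hk
    obtain ⟨j, hj, rfl⟩ := hk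
    rw [mem_range] at hj
    rw [mem_Icc]
    omega
  rw [← sum_subset hsub]
  · have hinj : Set.InjOn (fun k : ℕ => (k : ℤ)) (range n : Finset ℕ) := by
      intro a _ b _ hab
      exact Int.ofNat.inj hab
    rw [sum_image hinj]
    have h1 : ∑ k ∈ range n, cw n (k : ℤ) = ∑ k ∈ range n, ((k : ℝ) + 1) * ((n : ℝ) - k) := by
      refine sum_congr rfl fun k hk => ?_
      rw [mem_range] at hk
      rw [sqB2b_in (by omega) (by omega)]
      push_cast
      ring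
    rw [h1, sqB2b_range]
    ring
  · intro k hk hk'
    apply sqB2b_out
    by_contra hcon
    apply hk'
    rw [mem_image]
    refine ⟨k.toNat, mem_range.2 (by omega), by omega⟩

private theorem sqB2b_single (n : ℕ) (a j : ℤ) (S : Finset ℤ) :
    ∑ l ∈ S, (if l + j = a then (n : ℝ) / 2 else 0) * cw n l ≤
      (n : ℝ) / 2 * (((n : ℝ) + 1) ^ 2 / 4) := by
  have h0 : (0 : ℝ) ≤ (n : ℝ) / 2 * (((n : ℝ) + 1) ^ 2 / 4) := by positivity
  have e : ∀ l ∈ S, (if l + j = a then (n : ℝ) / 2 else 0) * cw n l =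
      if a - j = l then (n : ℝ) / 2 * cw n l else 0 := by
    intro l _
    by_cases h : l + j = a
    · rw [if_pos h, if_pos (by omega)]
    · rw [if_neg h, if_neg (by omega), zero_mul]
  rw [sum_congr rfl e, sum_ite_eq]
  split_ifs
  · exact mul_le_mul_of_nonneg_left (sqB2b_le n _) (by positivity)
  · exact h0

private theorem sqB2b_row {n : ℕ} {γ : ℝ} (hn : 1 ≤ n) (hγ : γ ≤ 1)
    (h : (1 - γ) * (n + 1) ^ 2 ≤ 180) (j : ℤ) :
    ∑ l ∈ Icc (-1 : ℤ) n, |dw n γ (l + j) * cw n l| ≤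
      46 * ((n : ℝ) * (n + 1) * (n + 2) / 6) + 2 * ((n : ℝ) / 2 * (((n : ℝ) + 1) ^ 2 / 4)) := by
  have h1 : ∀ l ∈ Icc (-1 : ℤ) n, |dw n γ (l + j) * cw n l| ≤
      46 * cw n l + (if l + j = -1 then (n : ℝ) / 2 else 0) * cw n l +
        (if l + j = n then (n : ℝ) / 2 else 0) * cw n l := by
    intro l _
    rw [abs_mul, abs_of_nonneg (sqB2b_nonneg n l)]
    have := mul_le_mul_of_nonneg_right (sqB2b_bound hn hγ h (l + j)) (sqB2b_nonneg n l)
    linarith
  refine (sum_le_sum h1).trans ?_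
  rw [sum_add_distrib, sum_add_distrib, ← mul_sum, sqB2b_sum]
  have h2 := sqB2b_single n (-1) j (Icc (-1 : ℤ) n)
  have h3 := sqB2b_single n n j (Icc (-1 : ℤ) n)
  linarith

/-- The coefficients are at most `200 ∑ c_k` in absolute value:
`|d_k| ≤ (1 - γ) c_k + 1 ≤ 46` inside, `d_(-1) = d_n = n / 2`, `c_k ≤ (n + 1) ^ 2 / 4`. -/
theorem coeff_upper (n : ℕ) (γ : ℝ) (hn : 1 ≤ n) (hγ : γ ≤ 1)
    (h : (1 - γ) * (n + 1) ^ 2 ≤ 180) (m : ℕ) (hm : 1 ≤ m) :
    ∑ p ∈ (Finset.Icc (-1 : ℤ) n ×ˢ Finset.Icc (-1 : ℤ) n).filter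
      (fun p => (p.1 - p.2).natAbs = m), |dw n γ p.1 * cw n p.2|
      ≤ 200 * ((n : ℝ) * (n + 1) * (n + 2) / 6) := by
  set A : Finset (ℤ × ℤ) := (Icc (-1 : ℤ) n).image (fun l => (l + (m : ℤ), l)) with hA
  set B : Finset (ℤ × ℤ) := (Icc (-1 : ℤ) n).image (fun l => (l + (-(m : ℤ)), l)) with hB
  have hsub : (Finset.Icc (-1 : ℤ) n ×ˢ Finset.Icc (-1 : ℤ) n).filter
      (fun p => (p.1 - p.2).natAbs = m) ⊆ A ∪ B := by
    rintro ⟨k, l⟩ hp
    rw [mem_filter, mem_product] at hp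
    obtain ⟨⟨-, hl⟩, hkl⟩ := hp
    simp only at hl hkl
    rw [mem_union, hA, hB, mem_image, mem_image]
    rcases le_total l k with h1 | h1
    · left
      refine ⟨l, hl, ?_⟩
      rw [Prod.mk.injEq]
      omega
    · right
      refine ⟨l, hl, ?_⟩
      rw [Prod.mk.injEq]
      omega
  have hnn : ∀ p : ℤ × ℤ, 0 ≤ |dw n γ p.1 * cw n p.2| := fun p => abs_nonneg _
  have h1 := sum_le_sum_of_subset_of_nonneg (f := fun p : ℤ × ℤ => |dw n γ p.1 * cw n p.2|) hsub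
    (fun p _ _ => hnn p)
  have h2 := sum_union_inter (s₁ := A) (s₂ := B) (f := fun p : ℤ × ℤ => |dw n γ p.1 * cw n p.2|)
  have h3 : 0 ≤ ∑ p ∈ A ∩ B, |dw n γ p.1 * cw n p.2| := sum_nonneg fun p _ => hnn p
  have h4 : ∑ p ∈ A, |dw n γ p.1 * cw n p.2| =
      ∑ l ∈ Icc (-1 : ℤ) n, |dw n γ (l + (m : ℤ)) * cw n l| := by
    rw [hA, sum_image]
    intro a _ b _ hab
    exact (Prod.mk.inj hab).2
  have h5 : ∑ p ∈ B, |dw n γ p.1 * cw n p.2| =
      ∑ l ∈ Icc (-1 : ℤ) n, |dw n γ (l + (-(m : ℤ))) * cw n l| := by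
    rw [hB, sum_image]
    intro a _ b _ hab
    exact (Prod.mk.inj hab).2
  have h6 := sqB2b_row hn hγ h (m : ℤ)
  have h7 := sqB2b_row hn hγ h (-(m : ℤ))
  have hn0 : (0 : ℝ) ≤ n := Nat.cast_nonneg n
  have h8 : 4 * ((n : ℝ) / 2 * (((n : ℝ) + 1) ^ 2 / 4)) ≤ 3 * ((n : ℝ) * (n + 1) * (n + 2) / 6) := by
    have : (0 : ℝ) ≤ n * (n + 1) := by positivity
    nlinarith
  have h9 : (0 : ℝ) ≤ (n : ℝ) * (n + 1) * (n + 2) / 6 := by positivity
  linarith

end MP5f3550
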