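import Pool.Agent.Lib.MP_5f3550_nt.SqB1
import Pool.Agent.Lib.MP_5f3550_nt.SqB2
import Pool.Agent.Lib.MP_5f3550_nt.SqB2b

/-!
# Row sq-B3: the minorant
-/

namespace MP5f3550

open Finset

theorem SqB3_lower {Δ : ℝ} (h0 : 0 < Δ) (h1 : Δ ≤ 1 / 2) :
    8 * Δ ^ 2 ≤ 1 - Real.cos (2 * Real.pi * Δ) := by
  have hpi := Real.pi_pos
  have h2 : 2 * Real.pi * Δ = 2 * (Real.pi * Δ) := by ring
  rw [h2, Real.cos_two_mul, Real.cos_sq']
  have h3 : 2 / Real.pi * (Real.pi * Δ) ≤ Real.sin (Real.pi * Δ) :=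
    Real.mul_le_sin (by positivity) (by nlinarith)
  have h4 : 2 / Real.pi * (Real.pi * Δ) = 2 * Δ := by field_simp
  rw [h4] at h3
  nlinarith

theorem SqB3_upper (Δ : ℝ) :
    1 - Real.cos (2 * Real.pi * Δ) ≤ 2 * Real.pi ^ 2 * Δ ^ 2 := by
  have := Real.one_sub_sq_div_two_le_cos (x := 2 * Real.pi * Δ)
  nlinarith

theorem SqB3_group (n : ℕ) (f : ℤ → ℤ → ℝ) (x : ℝ) :
    ∑ k ∈ Finset.Icc (-1 : ℤ) n, ∑ l ∈ Finset.Icc (-1 : ℤ) n,
      f k l * Real.cos (2 * Real.pi * ((k : ℝ) - l) * x) =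
    ∑ k ∈ Finset.Icc (-1 : ℤ) n, f k k +
      ∑ m ∈ Finset.Icc 1 (n + 1),
        (∑ p ∈ (Finset.Icc (-1 : ℤ) n ×ˢ Finset.Icc (-1 : ℤ) n).filter
          (fun p => (p.1 - p.2).natAbs = m), f p.1 p.2) * Real.cos (2 * Real.pi * m * x) := by
  classical
  rw [← Finset.sum_product']
  have hmaps : ∀ p ∈ Finset.Icc (-1 : ℤ) n ×ˢ Finset.Icc (-1 : ℤ) n,
      (p.1 - p.2).natAbs ∈ Finset.range (n + 2) := by
    intro p hp
    rw [Finset.mem_product, Finset.mem_Icc, Finset.mem_Icc] at hp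
    rw [Finset.mem_range]
    omega
  rw [← Finset.sum_fiberwise_of_maps_to hmaps]
  have hcos : ∀ p : ℤ × ℤ, Real.cos (2 * Real.pi * ((p.1 : ℝ) - p.2) * x) =
      Real.cos (2 * Real.pi * ((p.1 - p.2).natAbs : ℝ) * x) := by
    intro p
    have h1 : (((p.1 - p.2).natAbs : ℕ) : ℝ) = |(p.1 : ℝ) - p.2| := by
      rw [Nat.cast_natAbs]
      push_cast
      rfl
    rw [h1]
    rcases abs_choice ((p.1 : ℝ) - p.2) with h2 | h2
    · rw [h2]
    · rw [h2, ← Real.cos_neg]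
      congr 1
      ring
  have hsum : ∀ m, ∑ p ∈ (Finset.Icc (-1 : ℤ) n ×ˢ Finset.Icc (-1 : ℤ) n).filter
      (fun p => (p.1 - p.2).natAbs = m), f p.1 p.2 *
        Real.cos (2 * Real.pi * ((p.1 : ℝ) - p.2) * x) =
      (∑ p ∈ (Finset.Icc (-1 : ℤ) n ×ˢ Finset.Icc (-1 : ℤ) n).filter
          (fun p => (p.1 - p.2).natAbs = m), f p.1 p.2) * Real.cos (2 * Real.pi * m * x) := by
    intro m
    rw [Finset.sum_mul]
    refine Finset.sum_congr rfl fun p hp => ?_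
    rw [hcos, (Finset.mem_filter.1 hp).2]
  have hrange : Finset.range (n + 2) = insert 0 (Finset.Icc 1 (n + 1)) := by
    ext m
    simp only [Finset.mem_range, Finset.mem_insert, Finset.mem_Icc]
    omega
  rw [Finset.sum_congr rfl fun m _ => hsum m, hrange, Finset.sum_insert (by simp)]
  congr 1
  rw [Nat.cast_zero, mul_zero, zero_mul, Real.cos_zero, mul_one]
  refine Finset.sum_bij' (fun p _ => p.1) (fun k _ => (k, k)) ?_ ?_ ?_ ?_ ?_
  · intro p hp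
    exact (Finset.mem_product.1 (Finset.mem_filter.1 hp).1).1
  · intro k hk
    rw [Finset.mem_filter, Finset.mem_product]
    exact ⟨⟨hk, hk⟩, by simp⟩
  · intro p hp
    have h1 := (Finset.mem_filter.1 hp).2
    have h2 : p.1 = p.2 := by omega
    exact Prod.ext rfl h2
  · intro k _
    rfl
  · intro p hp
    have h1 := (Finset.mem_filter.1 hp).2
    have h2 : p.1 = p.2 := by omega
    rw [h2]

/-- A trigonometric polynomial of degree `n`, `2 / Δ ≤ n ≤ 3 / Δ`, with positive mean `a0`, all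
coefficients at most `200 a0`, and value at most `0` outside the window `|x - k| < Δ`.
Take `a0 = ∑ d_k c_k` (terms `k = l`) and `b m` = the sum of `d_k c_l` over `|k - l| = m`;
`8 Δ ^ 2 ≤ 1 - cos (2 π Δ) ≤ 2 π ^ 2 Δ ^ 2 ≤ 20 Δ ^ 2`. -/
theorem minorant (Δ : ℝ) (h0 : 0 < Δ) (h1 : Δ ≤ 1 / 2) (n : ℕ) (hn1 : 2 / Δ ≤ n)
    (hn2 : (n : ℝ) ≤ 3 / Δ - 1) :
    ∃ (a0 : ℝ) (b : ℕ → ℝ), 0 < a0 ∧ (∀ m, |b m| ≤ 200 * a0) ∧
      ∀ x : ℝ, (∀ k : ℤ, Δ ≤ |x - k|) →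
        a0 + ∑ m ∈ Finset.Icc 1 (n + 1), b m * Real.cos (2 * Real.pi * m * x) ≤ 0 := by
  classical
  set γ : ℝ := Real.cos (2 * Real.pi * Δ) with hγ
  have hγ1 : γ ≤ 1 := Real.cos_le_one _
  have hlow := SqB3_lower h0 h1
  have hup := SqB3_upper Δ
  rw [← hγ] at hlow hup
  have hnΔ : 2 ≤ n * Δ := by
    rw [div_le_iff₀ h0] at hn1
    exact hn1
  have hnΔ2 : (n + 1) * Δ ≤ 3 := by
    have h2 : (n : ℝ) + 1 ≤ 3 / Δ := by linarith
    rwa [le_div_iff₀ h0] at h2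
  have hn : 1 ≤ n := by
    rcases Nat.eq_zero_or_pos n with h2 | h2
    · rw [h2] at hnΔ
      norm_num at hnΔ
    · exact h2
  have hnR : (1 : ℝ) ≤ n := by exact_mod_cast hn
  have hc1 : 12 ≤ (1 - γ) * (n + 1) * (n + 2) := by
    have h2 : 4 ≤ (n * Δ) ^ 2 := by nlinarith
    have h3 : (n : ℝ) ^ 2 ≤ (n + 1) * (n + 2) := by nlinarith
    have h4 : 8 * Δ ^ 2 * (n : ℝ) ^ 2 ≤ (1 - γ) * ((n + 1) * (n + 2)) :=
      mul_le_mul hlow h3 (by positivity) (by linarith [sq_nonneg Δ])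
    nlinarith
  have hc2 : (1 - γ) * ((n : ℝ) + 1) ^ 2 ≤ 180 := by
    have h2 : (((n : ℝ) + 1) * Δ) ^ 2 ≤ 9 := by
      have : 0 ≤ ((n : ℝ) + 1) * Δ := by positivity
      nlinarith
    have h3 : (1 - γ) * ((n : ℝ) + 1) ^ 2 ≤ 2 * Real.pi ^ 2 * Δ ^ 2 * ((n : ℝ) + 1) ^ 2 :=
      mul_le_mul_of_nonneg_right hup (by positivity)
    have h4 : Real.pi ^ 2 ≤ 10 := by
      have h5 := Real.pi_lt_d2
      have h6 := Real.pi_pos
      nlinarith
    have h7 : 2 * Real.pi ^ 2 * Δ ^ 2 * ((n : ℝ) + 1) ^ 2 =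
        2 * Real.pi ^ 2 * (((n : ℝ) + 1) * Δ) ^ 2 := by ring
    rw [h7] at h3
    have h8 : 2 * Real.pi ^ 2 * (((n : ℝ) + 1) * Δ) ^ 2 ≤ 20 * 9 := by
      have h9 : 0 ≤ (((n : ℝ) + 1) * Δ) ^ 2 := by positivity
      nlinarith
    linarith
  have hmean := mean_lower n γ hn hγ1 hc1
  have hS1 : 0 < (n : ℝ) * (n + 1) * (n + 2) / 6 := by positivity
  refine ⟨∑ k ∈ Finset.Icc (-1 : ℤ) n, dw n γ k * cw n k,
    fun m => if m = 0 then 0 else
      ∑ p ∈ (Finset.Icc (-1 : ℤ) n ×ˢ Finset.Icc (-1 : ℤ) n).filter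
        (fun p => (p.1 - p.2).natAbs = m), dw n γ p.1 * cw n p.2, by linarith, ?_, ?_⟩
  · intro m
    beta_reduce
    split_ifs with hm
    · rw [abs_zero]
      linarith
    · refine (Finset.abs_sum_le_sum_abs _ _).trans ?_
      refine (coeff_upper n γ hn hγ1 hc2 m (by omega)).trans ?_
      linarith
  · intro x hx
    have hsign := minorant_sign n Δ x h0 h1 hx
    rw [← hγ, SqB3_group n (fun k l => dw n γ k * cw n l) x] at hsign
    refine le_trans (le_of_eq ?_) hsign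
    congr 1
    refine Finset.sum_congr rfl fun m hm => ?_
    rw [Finset.mem_Icc] at hm
    beta_reduce
    have hm0 : m ≠ 0 := by omega
    rw [if_neg hm0]

end MP5f3550
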