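import Pool.Agent.Lib.MP_5f3550_nt.Defs

/-!
# Row sq-C1: mean square with a Gaussian weight
-/

namespace MP5f3550

open Finset MeasureTheory

private theorem sqC1_gauss {A : ℝ} (hA : 0 < A) (x : ℝ) :
    Integrable (fun t : ℝ => Complex.exp (((-Real.pi / A ^ 2 : ℝ) : ℂ) * (t : ℂ) ^ 2 +
      (2 * Real.pi * Complex.I * x) * t + 0)) ∧
    ∫ t : ℝ, Complex.exp (((-Real.pi / A ^ 2 : ℝ) : ℂ) * (t : ℂ) ^ 2 +
      (2 * Real.pi * Complex.I * x) * t + 0) =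
        ((A * Real.exp (-Real.pi * (A * x) ^ 2) : ℝ) : ℂ) := by
  have hpi := Real.pi_pos
  have hA2 : (0 : ℝ) < A ^ 2 := by positivity
  have hb : (((-Real.pi / A ^ 2 : ℝ) : ℂ)).re < 0 := by
    rw [Complex.ofReal_re]
    exact div_neg_of_neg_of_pos (by linarith) hA2
  have hb' : 0 < (((Real.pi / A ^ 2 : ℝ) : ℂ)).re := by
    rw [Complex.ofReal_re]
    positivity
  have hbb : ((-Real.pi / A ^ 2 : ℝ) : ℂ) = -((Real.pi / A ^ 2 : ℝ) : ℂ) := by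
    rw [← Complex.ofReal_neg, neg_div]
  refine ⟨?_, ?_⟩
  · rw [hbb]
    exact integrable_cexp_quadratic hb' _ _
  rw [integral_cexp_quadratic hb]
  have h1 : (Real.pi : ℂ) / -((-Real.pi / A ^ 2 : ℝ) : ℂ) = ((A ^ 2 : ℝ) : ℂ) := by
    rw [← Complex.ofReal_neg, ← Complex.ofReal_div]
    congr 1
    field_simp
  have h2 : (((A ^ 2 : ℝ) : ℂ)) ^ (1 / 2 : ℂ) = ((A : ℝ) : ℂ) := by
    have h3 : (1 / 2 : ℂ) = ((1 / 2 : ℝ) : ℂ) := by push_cast; ring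
    rw [h3, ← Complex.ofReal_cpow hA2.le, ← Real.sqrt_eq_rpow, Real.sqrt_sq hA.le]
  have h4 : (0 : ℂ) - (2 * Real.pi * Complex.I * x) ^ 2 / (4 * ((-Real.pi / A ^ 2 : ℝ) : ℂ)) =
      ((-Real.pi * (A * x) ^ 2 : ℝ) : ℂ) := by
    have hA' : (A : ℂ) ≠ 0 := Complex.ofReal_ne_zero.2 hA.ne'
    have hp' : (Real.pi : ℂ) ≠ 0 := Complex.ofReal_ne_zero.2 hpi.ne'
    push_cast
    field_simp
    rw [Complex.I_sq]
    ring
  rw [h1, h2, h4, ← Complex.ofReal_exp, ← Complex.ofReal_mul]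

/-- `∫_0^A |S|² ≤ e^π ∫ e^{-π t² / A²} |S|² = e^π A ∑ z_ν z̄_μ e^{-π A² (ξ_ν - ξ_μ)²}`. -/
theorem gauss_meansq {ι : Type*} (s : Finset ι) (ξ : ι → ℝ) (z : ι → ℂ) (A : ℝ) (hA : 0 < A) :
    ∫ t in (0 : ℝ)..A,
        ‖∑ ν ∈ s, z ν * Complex.exp (2 * Real.pi * Complex.I * (ξ ν) * t)‖ ^ 2
      ≤ Real.exp Real.pi * A *
        ∑ ν ∈ s, ∑ μ ∈ s, ‖z ν‖ * ‖z μ‖ *
          Real.exp (-Real.pi * (A * (ξ ν - ξ μ)) ^ 2) := by
  have hpi := Real.pi_pos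
  let S : ℝ → ℂ := fun t => ∑ ν ∈ s, z ν * Complex.exp (2 * Real.pi * Complex.I * (ξ ν) * t)
  let F : ℝ → ℂ := fun t => ∑ ν ∈ s, ∑ μ ∈ s, (z ν * (starRingEnd ℂ) (z μ)) *
    Complex.exp (((-Real.pi / A ^ 2 : ℝ) : ℂ) * (t : ℂ) ^ 2 +
      (2 * Real.pi * Complex.I * ((ξ ν - ξ μ : ℝ) : ℂ)) * t + 0)
  have hFint : Integrable F := by
    refine integrable_finsetSum _ fun ν _ => integrable_finsetSum _ fun μ _ => ?_
    exact (sqC1_gauss hA (ξ ν - ξ μ)).1.const_mul _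
  have hFval : ∫ t, F t = ∑ ν ∈ s, ∑ μ ∈ s, (z ν * (starRingEnd ℂ) (z μ)) *
      ((A * Real.exp (-Real.pi * (A * (ξ ν - ξ μ)) ^ 2) : ℝ) : ℂ) := by
    change ∫ t, ∑ ν ∈ s, ∑ μ ∈ s, _ = _
    rw [integral_finsetSum _ fun ν _ => integrable_finsetSum _ fun μ _ =>
      (sqC1_gauss hA (ξ ν - ξ μ)).1.const_mul _]
    refine Finset.sum_congr rfl fun ν _ => ?_
    rw [integral_finsetSum _ fun μ _ => (sqC1_gauss hA (ξ ν - ξ μ)).1.const_mul _]
    refine Finset.sum_congr rfl fun μ _ => ?_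
    rw [integral_const_mul, (sqC1_gauss hA (ξ ν - ξ μ)).2]
  have hFS : ∀ t : ℝ, F t = ((Real.exp (-Real.pi / A ^ 2 * t ^ 2) * ‖S t‖ ^ 2 : ℝ) : ℂ) := by
    intro t
    have h1 : ((‖S t‖ ^ 2 : ℝ) : ℂ) = S t * (starRingEnd ℂ) (S t) := by
      rw [Complex.mul_conj, Complex.normSq_eq_norm_sq]
    rw [Complex.ofReal_mul, h1]
    change ∑ ν ∈ s, ∑ μ ∈ s, _ = _ * ((∑ ν ∈ s, _) * (starRingEnd ℂ) (∑ ν ∈ s, _))
    rw [map_sum, Finset.sum_mul_sum, Finset.mul_sum]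
    refine Finset.sum_congr rfl fun ν _ => ?_
    rw [Finset.mul_sum]
    refine Finset.sum_congr rfl fun μ _ => ?_
    rw [map_mul, ← Complex.exp_conj, Complex.ofReal_exp]
    have h2 : (starRingEnd ℂ) (2 * Real.pi * Complex.I * (ξ μ) * t) =
        -(2 * Real.pi * Complex.I * (ξ μ) * t) := by
      simp only [map_mul, Complex.conj_I, Complex.conj_ofReal, map_ofNat]
      ring
    rw [h2]
    have h3 : Complex.exp (((-Real.pi / A ^ 2 * t ^ 2 : ℝ) : ℂ)) *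
        (z ν * Complex.exp (2 * Real.pi * Complex.I * (ξ ν) * t) *
          ((starRingEnd ℂ) (z μ) * Complex.exp (-(2 * Real.pi * Complex.I * (ξ μ) * t)))) =
        z ν * (starRingEnd ℂ) (z μ) * (Complex.exp (((-Real.pi / A ^ 2 * t ^ 2 : ℝ) : ℂ)) *
          Complex.exp (2 * Real.pi * Complex.I * (ξ ν) * t) *
            Complex.exp (-(2 * Real.pi * Complex.I * (ξ μ) * t))) := by ring
    rw [h3, ← Complex.exp_add, ← Complex.exp_add]
    congr 2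
    push_cast
    ring
  have hScont : Continuous S := by
    refine continuous_finsetSum _ fun ν _ => ?_
    fun_prop
  have hgint : Integrable (fun t : ℝ => Real.exp (-Real.pi / A ^ 2 * t ^ 2) * ‖S t‖ ^ 2) := by
    have := hFint.re
    refine this.congr ?_
    filter_upwards with t
    rw [hFS]
    exact Complex.ofReal_re _
  have hg0 : ∀ t : ℝ, 0 ≤ Real.exp Real.pi * (Real.exp (-Real.pi / A ^ 2 * t ^ 2) * ‖S t‖ ^ 2) :=
    fun t => by positivity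
  have step1 : ∫ t in (0 : ℝ)..A, ‖S t‖ ^ 2 ≤
      ∫ t, Real.exp Real.pi * (Real.exp (-Real.pi / A ^ 2 * t ^ 2) * ‖S t‖ ^ 2) := by
    rw [intervalIntegral.integral_of_le hA.le]
    refine le_trans ?_ (setIntegral_le_integral (s := Set.Ioc 0 A) (hgint.const_mul _)
      (Filter.Eventually.of_forall hg0))
    refine setIntegral_mono_on ?_ (hgint.const_mul _).integrableOn measurableSet_Ioc ?_
    · exact ((hScont.norm.pow 2).integrableOn_Icc).mono_set Set.Ioc_subset_Icc_self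
    · intro t ht
      have h1 : 1 ≤ Real.exp Real.pi * Real.exp (-Real.pi / A ^ 2 * t ^ 2) := by
        rw [← Real.exp_add]
        apply Real.one_le_exp
        have h2 : t ^ 2 / A ^ 2 ≤ 1 := by
          rw [div_le_one (by positivity)]
          exact pow_le_pow_left₀ ht.1.le ht.2 2
        have h3 : -Real.pi / A ^ 2 * t ^ 2 = -(Real.pi * (t ^ 2 / A ^ 2)) := by
          field_simp
        rw [h3]
        nlinarith
      have h4 : 0 ≤ ‖S t‖ ^ 2 := by positivity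
      rw [← mul_assoc]
      nlinarith
  have step2 : ∫ t, Real.exp Real.pi * (Real.exp (-Real.pi / A ^ 2 * t ^ 2) * ‖S t‖ ^ 2) =
      Real.exp Real.pi * ∫ t, Real.exp (-Real.pi / A ^ 2 * t ^ 2) * ‖S t‖ ^ 2 :=
    integral_const_mul _ _
  have step3 : ∫ t, Real.exp (-Real.pi / A ^ 2 * t ^ 2) * ‖S t‖ ^ 2 ≤
      A * ∑ ν ∈ s, ∑ μ ∈ s, ‖z ν‖ * ‖z μ‖ * Real.exp (-Real.pi * (A * (ξ ν - ξ μ)) ^ 2) := by
    have h1 : ((∫ t, Real.exp (-Real.pi / A ^ 2 * t ^ 2) * ‖S t‖ ^ 2 : ℝ) : ℂ) = ∫ t, F t := by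
      rw [← integral_complex_ofReal]
      exact integral_congr_ae (Filter.Eventually.of_forall fun t => (hFS t).symm)
    have h2 : ∫ t, Real.exp (-Real.pi / A ^ 2 * t ^ 2) * ‖S t‖ ^ 2 ≤ ‖∫ t, F t‖ := by
      rw [← h1, Complex.norm_real]
      exact Real.le_norm_self _
    refine h2.trans ?_
    rw [hFval, Finset.mul_sum]
    refine (norm_sum_le _ _).trans (Finset.sum_le_sum fun ν _ => ?_)
    rw [Finset.mul_sum]
    refine (norm_sum_le _ _).trans (Finset.sum_le_sum fun μ _ => ?_)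
    rw [norm_mul, norm_mul, RCLike.norm_conj, Complex.norm_real, Real.norm_of_nonneg
      (by positivity)]
    apply le_of_eq
    ring
  calc ∫ t in (0 : ℝ)..A,
        ‖∑ ν ∈ s, z ν * Complex.exp (2 * Real.pi * Complex.I * (ξ ν) * t)‖ ^ 2
      ≤ Real.exp Real.pi * ∫ t, Real.exp (-Real.pi / A ^ 2 * t ^ 2) * ‖S t‖ ^ 2 :=
        step1.trans step2.le
    _ ≤ Real.exp Real.pi * (A * ∑ ν ∈ s, ∑ μ ∈ s, ‖z ν‖ * ‖z μ‖ *
          Real.exp (-Real.pi * (A * (ξ ν - ξ μ)) ^ 2)) :=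
        mul_le_mul_of_nonneg_left step3 (Real.exp_pos _).le
    _ = _ := by ring

end MP5f3550
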