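import Pool.Agent.Lib.MP_5f3550_nt.Defs

/-!
# Row sq-C2: from Gaussian weights to close pairs
Put `y ν = A * ξ ν` in the bin `⌊y ν⌋`.  Two members of one bin are at distance less than `1`;
members of bins `k, l` contribute at most `4 * (1/2) ^ |k - l|`, and
`n_k n_l ≤ (n_k ^ 2 + n_l ^ 2) / 2`, `∑_{l ∈ K} (1/2) ^ |k - l| ≤ 3`.
-/

namespace MP5f3550

open Finset

/-- `e^{-π y²} ≤ 4 * (1/2) ^ |⌊u⌋ - ⌊v⌋|` for `y = u - v`. -/
theorem gauss_le_bin (u v : ℝ) :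
    Real.exp (-Real.pi * (u - v) ^ 2) ≤ 4 * (1 / 2 : ℝ) ^ (⌊u⌋ - ⌊v⌋).natAbs := by
  have hpi := Real.pi_gt_three
  have hle1 : Real.exp (-Real.pi * (u - v) ^ 2) ≤ 1 := by
    rw [Real.exp_le_one_iff]
    nlinarith [sq_nonneg (u - v)]
  rcases Nat.lt_or_ge (⌊u⌋ - ⌊v⌋).natAbs 2 with hk | hk
  · have h1 : (1 / 2 : ℝ) ≤ (1 / 2 : ℝ) ^ (⌊u⌋ - ⌊v⌋).natAbs := by
      interval_cases (⌊u⌋ - ⌊v⌋).natAbs <;> norm_num
    linarith
  · obtain ⟨m, hm⟩ := Nat.exists_eq_add_of_le hk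
    rw [hm]
    have hu1 := Int.floor_le u
    have hu2 := Int.lt_floor_add_one u
    have hv1 := Int.floor_le v
    have hv2 := Int.lt_floor_add_one v
    have habs : (m : ℝ) + 1 ≤ |u - v| := by
      rcases le_total 0 (⌊u⌋ - ⌊v⌋) with h0 | h0
      · have h1 : ⌊u⌋ - ⌊v⌋ = 2 + (m : ℤ) := by omega
        have h2 : (⌊u⌋ : ℝ) - ⌊v⌋ = 2 + m := by exact_mod_cast h1
        rw [le_abs]
        left
        linarith
      · have h1 : ⌊v⌋ - ⌊u⌋ = 2 + (m : ℤ) := by omega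
        have h2 : (⌊v⌋ : ℝ) - ⌊u⌋ = 2 + m := by exact_mod_cast h1
        rw [le_abs]
        right
        linarith
    have hm0 : (0 : ℝ) ≤ m := Nat.cast_nonneg m
    have hsq : (m : ℝ) ≤ (u - v) ^ 2 := by
      rw [← sq_abs]
      nlinarith
    have h3 : Real.exp (-Real.pi * (u - v) ^ 2) ≤ Real.exp ((m : ℝ) * (-1)) := by
      apply Real.exp_le_exp.2
      nlinarith
    have h4 : Real.exp (-1) ≤ 1 / 2 := by
      rw [Real.exp_neg, one_div]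
      apply inv_anti₀ (by norm_num)
      have := Real.add_one_le_exp (1 : ℝ)
      linarith
    calc Real.exp (-Real.pi * (u - v) ^ 2) ≤ Real.exp ((m : ℝ) * (-1)) := h3
      _ = Real.exp (-1) ^ m := by rw [Real.exp_nat_mul]
      _ ≤ (1 / 2) ^ m := pow_le_pow_left₀ (Real.exp_pos _).le h4 m
      _ = 4 * (1 / 2 : ℝ) ^ (2 + m) := by
        rw [pow_add]
        ring

/-- `∑_{l ∈ K} (1/2) ^ |k - l| ≤ 3`. -/
theorem geom_int (K : Finset ℤ) (k : ℤ) :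
    ∑ l ∈ K, (1 / 2 : ℝ) ^ (k - l).natAbs ≤ 3 := by
  have hsum : Summable fun n : ℕ => (1 / 2 : ℝ) ^ n := summable_geometric_two
  have h1 : ∑ l ∈ K.filter (fun l => l ≤ k), (1 / 2 : ℝ) ^ (k - l).natAbs ≤ 2 := by
    rw [← Finset.sum_image (g := fun l : ℤ => (k - l).natAbs) (f := fun n : ℕ => (1 / 2 : ℝ) ^ n)]
    · exact (hsum.sum_le_tsum _ (fun n _ => by positivity)).trans tsum_geometric_two.le
    · intro a ha b hb hab
      have ha' : a ≤ k := (Finset.mem_filter.1 (Finset.mem_coe.1 ha)).2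
      have hb' : b ≤ k := (Finset.mem_filter.1 (Finset.mem_coe.1 hb)).2
      have hab' : (k - a).natAbs = (k - b).natAbs := hab
      omega
  have h2 : ∑ l ∈ K.filter (fun l => ¬ l ≤ k), (1 / 2 : ℝ) ^ (k - l).natAbs ≤ 1 := by
    have h3 : ∀ l ∈ K.filter (fun l => ¬ l ≤ k), (1 / 2 : ℝ) ^ (k - l).natAbs =
        (1 / 2) * (1 / 2 : ℝ) ^ (l - k - 1).natAbs := by
      intro l hl
      have hl' : ¬ l ≤ k := (Finset.mem_filter.1 hl).2
      have h4 : (k - l).natAbs = (l - k - 1).natAbs + 1 := by omega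
      rw [h4, pow_succ]
      ring
    rw [Finset.sum_congr rfl h3, ← Finset.mul_sum]
    have h5 : ∑ l ∈ K.filter (fun l => ¬ l ≤ k), (1 / 2 : ℝ) ^ (l - k - 1).natAbs ≤ 2 := by
      rw [← Finset.sum_image (g := fun l : ℤ => (l - k - 1).natAbs)
        (f := fun n : ℕ => (1 / 2 : ℝ) ^ n)]
      · exact (hsum.sum_le_tsum _ (fun n _ => by positivity)).trans tsum_geometric_two.le
      · intro a ha b hb hab
        have ha' : ¬ a ≤ k := (Finset.mem_filter.1 (Finset.mem_coe.1 ha)).2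
        have hb' : ¬ b ≤ k := (Finset.mem_filter.1 (Finset.mem_coe.1 hb)).2
        have hab' : (a - k - 1).natAbs = (b - k - 1).natAbs := hab
        omega
    linarith
  rw [← Finset.sum_filter_add_sum_filter_not K (fun l => l ≤ k)]
  linarith

open Classical in
/-- Gaussian weights are dominated by the number of close pairs. -/
theorem gauss_le_close {ι : Type*} (s : Finset ι) (y : ι → ℝ) :
    ∑ ν ∈ s, ∑ μ ∈ s, Real.exp (-Real.pi * (y ν - y μ) ^ 2)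
      ≤ 12 * (((s ×ˢ s).filter (fun p => |y p.1 - y p.2| ≤ 1)).card : ℝ) := by
  set g : ι → ℤ := fun ν => ⌊y ν⌋ with hg
  set K := s.image g with hK
  set n : ℤ → ℝ := fun k => ((s.filter (fun a => g a = k)).card : ℝ) with hn
  have hcomp : ∀ f : ℤ → ℝ, ∑ a ∈ s, f (g a) = ∑ k ∈ K, n k * f k := by
    intro f
    rw [Finset.sum_comp]
    exact Finset.sum_congr rfl fun k _ => by rw [nsmul_eq_mul]
  have h1 : ∑ ν ∈ s, ∑ μ ∈ s, Real.exp (-Real.pi * (y ν - y μ) ^ 2) ≤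
      ∑ ν ∈ s, ∑ μ ∈ s, 4 * (1 / 2 : ℝ) ^ (g ν - g μ).natAbs :=
    Finset.sum_le_sum fun ν _ => Finset.sum_le_sum fun μ _ => gauss_le_bin (y ν) (y μ)
  have h2 : ∑ ν ∈ s, ∑ μ ∈ s, 4 * (1 / 2 : ℝ) ^ (g ν - g μ).natAbs =
      ∑ k ∈ K, ∑ l ∈ K, 4 * (n k * n l * (1 / 2 : ℝ) ^ (k - l).natAbs) := by
    rw [Finset.sum_congr rfl fun ν _ =>
      hcomp (fun l => 4 * (1 / 2 : ℝ) ^ (g ν - l).natAbs)]
    rw [hcomp (fun k => ∑ l ∈ K, n l * (4 * (1 / 2 : ℝ) ^ (k - l).natAbs))]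
    refine Finset.sum_congr rfl fun k _ => ?_
    rw [Finset.mul_sum]
    exact Finset.sum_congr rfl fun l _ => by ring
  have h3 : ∑ k ∈ K, ∑ l ∈ K, 4 * (n k * n l * (1 / 2 : ℝ) ^ (k - l).natAbs) ≤
      ∑ k ∈ K, ∑ l ∈ K, (2 * (n k ^ 2 * (1 / 2 : ℝ) ^ (k - l).natAbs) +
        2 * (n l ^ 2 * (1 / 2 : ℝ) ^ (l - k).natAbs)) := by
    refine Finset.sum_le_sum fun k _ => Finset.sum_le_sum fun l _ => ?_
    have e : (l - k).natAbs = (k - l).natAbs := by omega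
    rw [e]
    have hp : 0 < (1 / 2 : ℝ) ^ (k - l).natAbs := by positivity
    nlinarith [sq_nonneg (n k - n l), mul_nonneg (sq_nonneg (n k - n l)) hp.le]
  have h4 : ∑ k ∈ K, ∑ l ∈ K, (2 * (n k ^ 2 * (1 / 2 : ℝ) ^ (k - l).natAbs) +
      2 * (n l ^ 2 * (1 / 2 : ℝ) ^ (l - k).natAbs)) =
      4 * ∑ k ∈ K, n k ^ 2 * ∑ l ∈ K, (1 / 2 : ℝ) ^ (k - l).natAbs := by
    have h5 : ∑ k ∈ K, ∑ l ∈ K, 2 * (n l ^ 2 * (1 / 2 : ℝ) ^ (l - k).natAbs) =
        ∑ k ∈ K, ∑ l ∈ K, 2 * (n k ^ 2 * (1 / 2 : ℝ) ^ (k - l).natAbs) := Finset.sum_comm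
    simp only [Finset.sum_add_distrib]
    rw [h5, Finset.mul_sum, ← Finset.sum_add_distrib]
    refine Finset.sum_congr rfl fun k _ => ?_
    rw [Finset.mul_sum, Finset.mul_sum, ← Finset.sum_add_distrib]
    exact Finset.sum_congr rfl fun l _ => by ring
  have h6 : 4 * ∑ k ∈ K, n k ^ 2 * ∑ l ∈ K, (1 / 2 : ℝ) ^ (k - l).natAbs ≤
      12 * ∑ k ∈ K, n k ^ 2 := by
    have : ∑ k ∈ K, n k ^ 2 * ∑ l ∈ K, (1 / 2 : ℝ) ^ (k - l).natAbs ≤ ∑ k ∈ K, n k ^ 2 * 3 :=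
      Finset.sum_le_sum fun k _ => mul_le_mul_of_nonneg_left (geom_int K k) (sq_nonneg _)
    rw [← Finset.sum_mul] at this
    linarith
  have h7 : ∑ k ∈ K, n k ^ 2 ≤ (((s ×ˢ s).filter (fun p => |y p.1 - y p.2| ≤ 1)).card : ℝ) := by
    have e1 : ∑ k ∈ K, n k ^ 2 = ∑ a ∈ s, n (g a) := by
      rw [hcomp n]
      exact Finset.sum_congr rfl fun k _ => by ring
    have e2 : ∑ a ∈ s, n (g a) = (((s ×ˢ s).filter (fun p => g p.2 = g p.1)).card : ℝ) := by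
      rw [Finset.card_filter, Finset.sum_product]
      push_cast
      refine Finset.sum_congr rfl fun a _ => ?_
      rw [hn]
      beta_reduce
      rw [Finset.card_filter]
      push_cast
      rfl
    rw [e1, e2]
    norm_cast
    apply Finset.card_le_card
    intro p hp
    rw [Finset.mem_filter] at hp ⊢
    refine ⟨hp.1, ?_⟩
    have h8 : ⌊y p.2⌋ = ⌊y p.1⌋ := hp.2
    have := Int.abs_sub_lt_one_of_floor_eq_floor h8
    rw [abs_sub_comm]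
    exact this.le
  linarith

end MP5f3550
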