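import Pool.Agent.Lib.MP_5f3550_nt.SqC1
import Pool.Agent.Lib.MP_5f3550_nt.SqC2

/-!
# Row sq-C3: the mean square bound
-/

namespace MP5f3550

open Finset MeasureTheory

theorem sqC3_exp_pi : Real.exp Real.pi ≤ 25 := by
  have h1 : Real.pi ≤ 3.15 := Real.pi_lt_d2.le
  have h2 : Real.exp 1 < 2.7182818286 := Real.exp_one_lt_d9
  have h3 : Real.exp Real.pi ≤ Real.exp (1 * 3 + 0.15) := Real.exp_le_exp.2 (by linarith)
  have h4 : Real.exp (0.15 : ℝ) ≤ 1.2 := by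
    have := Real.abs_exp_sub_one_sub_id_le (x := 0.15) (by norm_num [abs_of_pos])
    have h5 := (abs_le.1 this).2
    norm_num at h5 ⊢
    linarith
  have h6 : Real.exp (1 * 3 : ℝ) ≤ 20.1 := by
    rw [show (1 * 3 : ℝ) = 1 + 1 + 1 by norm_num, Real.exp_add, Real.exp_add]
    have hp := Real.exp_pos 1
    nlinarith [mul_pos hp hp, mul_pos (mul_pos hp hp) hp]
  calc Real.exp Real.pi ≤ Real.exp (1 * 3 + 0.15) := h3
    _ = Real.exp (1 * 3) * Real.exp 0.15 := Real.exp_add _ _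
    _ ≤ 20.1 * 1.2 := mul_le_mul h6 h4 (Real.exp_pos _).le (by norm_num)
    _ ≤ 25 := by norm_num

open Classical in
/-- `∫_0^A |S|² ≤ 300 A κ² #{close pairs}` (`12 e^π < 300`). -/
theorem meansq {ι : Type*} (s : Finset ι) (ξ : ι → ℝ) (z : ι → ℂ) (A κ : ℝ) (hA : 0 < A)
    (hκ : 0 ≤ κ) (hz : ∀ ν ∈ s, ‖z ν‖ ≤ κ) :
    ∫ t in (0 : ℝ)..A,
        ‖∑ ν ∈ s, z ν * Complex.exp (2 * Real.pi * Complex.I * (ξ ν) * t)‖ ^ 2
      ≤ 300 * A * κ ^ 2 *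
        (((s ×ˢ s).filter (fun p => |ξ p.1 - ξ p.2| ≤ 1 / A)).card : ℝ) := by
  have h1 := gauss_meansq s ξ z A hA
  have h2 := gauss_le_close s (fun ν => A * ξ ν)
  have hset : (s ×ˢ s).filter (fun p : ι × ι => |A * ξ p.1 - A * ξ p.2| ≤ 1)
      = (s ×ˢ s).filter (fun p : ι × ι => |ξ p.1 - ξ p.2| ≤ 1 / A) := by
    apply Finset.filter_congr
    intro p _
    rw [← mul_sub, abs_mul, abs_of_pos hA, le_div_iff₀ hA, mul_comm]
  rw [hset] at h2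
  have h3 : ∑ ν ∈ s, ∑ μ ∈ s, ‖z ν‖ * ‖z μ‖ *
        Real.exp (-Real.pi * (A * (ξ ν - ξ μ)) ^ 2)
      ≤ κ ^ 2 * ∑ ν ∈ s, ∑ μ ∈ s, Real.exp (-Real.pi * (A * ξ ν - A * ξ μ) ^ 2) := by
    rw [Finset.mul_sum]
    refine Finset.sum_le_sum fun ν hν => ?_
    rw [Finset.mul_sum]
    refine Finset.sum_le_sum fun μ hμ => ?_
    rw [show A * (ξ ν - ξ μ) = A * ξ ν - A * ξ μ by ring, pow_two κ]
    exact mul_le_mul_of_nonneg_right
      (mul_le_mul (hz ν hν) (hz μ hμ) (norm_nonneg _) hκ) (Real.exp_pos _).le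
  set N : ℝ := (((s ×ˢ s).filter (fun p : ι × ι => |ξ p.1 - ξ p.2| ≤ 1 / A)).card : ℝ)
    with hN
  have hN0 : 0 ≤ N := by positivity
  have h4 : ∑ ν ∈ s, ∑ μ ∈ s, ‖z ν‖ * ‖z μ‖ *
        Real.exp (-Real.pi * (A * (ξ ν - ξ μ)) ^ 2) ≤ κ ^ 2 * (12 * N) :=
    h3.trans (mul_le_mul_of_nonneg_left h2 (by positivity))
  calc _ ≤ Real.exp Real.pi * A * ∑ ν ∈ s, ∑ μ ∈ s, ‖z ν‖ * ‖z μ‖ *
        Real.exp (-Real.pi * (A * (ξ ν - ξ μ)) ^ 2) := h1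
    _ ≤ 25 * A * (κ ^ 2 * (12 * N)) := by
        apply mul_le_mul _ h4 _ (by positivity)
        · exact mul_le_mul_of_nonneg_right sqC3_exp_pi hA.le
        · exact Finset.sum_nonneg fun ν _ => Finset.sum_nonneg fun μ _ => by positivity
    _ = 300 * A * κ ^ 2 * N := by ring

end MP5f3550
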