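import Pool.Agent.Lib.MP_5f3550_nt.Defs

/-!
# Row sq-D1: close frequencies give a small value of `h² (j' + ϑ) - h'² (j + ϑ)`
-/

namespace MP5f3550

open Finset

/-- Bounds for `q_j` (`2 J ≤ R`). -/
theorem qj_bounds (R ϑ : ℝ) (J j : ℕ) (hJ : 1 ≤ J) (hϑ0 : 0 ≤ ϑ) (hϑ1 : ϑ < 1)
    (hR : 2 * (J : ℝ) ≤ R) (hj1 : J ≤ j) (hj2 : j < 2 * J) :
    (J : ℝ) ≤ qj R ϑ j ∧ qj R ϑ j < 4 * J := by
  have hJ' : (1 : ℝ) ≤ J := by exact_mod_cast hJ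
  have h1 : (J : ℝ) ≤ j := by exact_mod_cast hj1
  have h2 : (j : ℝ) + 1 ≤ 2 * J := by exact_mod_cast hj2
  have hR0 : 0 < R := by linarith
  have hx0 : 0 ≤ (j : ℝ) + ϑ := by linarith
  have hx1 : (j : ℝ) + ϑ < 2 * J := by linarith
  have h3 : ((j : ℝ) + ϑ) ^ 2 / R ≤ (j : ℝ) + ϑ := by
    rw [div_le_iff₀ hR0, sq]
    exact mul_le_mul_of_nonneg_left (by linarith) hx0
  have h4 : 0 ≤ ((j : ℝ) + ϑ) ^ 2 / R := by positivity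
  rw [qj]
  constructor <;> linarith

/-- Bounds for `P_j`. -/
theorem Pj_bounds (R ϑ : ℝ) (J j : ℕ) (hJ : 1 ≤ J) (hϑ0 : 0 ≤ ϑ) (hϑ1 : ϑ < 1)
    (hR : 2 * (J : ℝ) ≤ R) (hj1 : J ≤ j) (hj2 : j < 2 * J) :
    2 * Real.sqrt J ≤ Pj R ϑ j ∧ Pj R ϑ j ≤ 4 * Real.sqrt J := by
  obtain ⟨h1, h2⟩ := qj_bounds R ϑ J j hJ hϑ0 hϑ1 hR hj1 hj2
  have h3 : Real.sqrt J ≤ Real.sqrt (qj R ϑ j) := Real.sqrt_le_sqrt h1
  have h4 : Real.sqrt (qj R ϑ j) ≤ 2 * Real.sqrt J := by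
    have h5 : Real.sqrt (4 * J) = 2 * Real.sqrt J := by
      rw [Real.sqrt_mul (by norm_num : (0 : ℝ) ≤ 4)]
      congr 1
      rw [show (4 : ℝ) = 2 ^ 2 by norm_num]
      exact Real.sqrt_sq (by norm_num)
    rw [← h5]
    exact Real.sqrt_le_sqrt h2.le
  rw [Pj]
  constructor <;> linarith

/-- From `|h / P - h' / P'| ≤ 1 / A`:  `|h √q' - h' √q| ≤ 2 √(q q') / A ≤ 8 J / A`, multiply by
`h √q' + h' √q ≤ 2 √J (h + h')`, and compare `q_j` with `2 (j + ϑ)`. -/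
theorem close_int (R ϑ A : ℝ) (J n j j' h h' : ℕ) (hJ : 1 ≤ J) (hn : 1 ≤ n)
    (hϑ0 : 0 ≤ ϑ) (hϑ1 : ϑ < 1) (hA : 0 < A)
    (hR : 8 * (n : ℝ) ^ 2 * (J : ℝ) ^ 2 ≤ R)
    (hj1 : J ≤ j) (hj2 : j < 2 * J) (hj1' : J ≤ j') (hj2' : j' < 2 * J)
    (hh : h ≤ n) (hh' : h' ≤ n)
    (hc : |(h : ℝ) / Pj R ϑ j - (h' : ℝ) / Pj R ϑ j'| ≤ 1 / A) :
    |(h : ℝ) ^ 2 * (j' + ϑ) - (h' : ℝ) ^ 2 * (j + ϑ)|
      ≤ 8 * (J * Real.sqrt J) * (h + h') / A + 1 / 4 := by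
  have hJ' : (1 : ℝ) ≤ J := by exact_mod_cast hJ
  have hn' : (1 : ℝ) ≤ n := by exact_mod_cast hn
  have hn2 : (1 : ℝ) ≤ (n : ℝ) ^ 2 := by nlinarith
  have hJ2 : (J : ℝ) ≤ (J : ℝ) ^ 2 := by nlinarith
  have hR2 : 2 * (J : ℝ) ≤ R := by nlinarith [mul_le_mul hn2 hJ2 (by linarith) (by positivity)]
  have hR0 : 0 < R := by linarith
  obtain ⟨a1, a2⟩ := qj_bounds R ϑ J j hJ hϑ0 hϑ1 hR2 hj1 hj2
  obtain ⟨b1, b2⟩ := qj_bounds R ϑ J j' hJ hϑ0 hϑ1 hR2 hj1' hj2'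
  obtain ⟨c1, c2⟩ := Pj_bounds R ϑ J j hJ hϑ0 hϑ1 hR2 hj1 hj2
  obtain ⟨d1, d2⟩ := Pj_bounds R ϑ J j' hJ hϑ0 hϑ1 hR2 hj1' hj2'
  set q := qj R ϑ j with hq
  set q' := qj R ϑ j' with hq'
  have hPe : Pj R ϑ j = 2 * Real.sqrt q := rfl
  have hPe' : Pj R ϑ j' = 2 * Real.sqrt q' := rfl
  set r := Real.sqrt q with hr
  set r' := Real.sqrt q' with hr'
  set w := Real.sqrt (J : ℝ) with hw
  have hw1 : 1 ≤ w := by rw [hw]; exact Real.one_le_sqrt.2 hJ'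
  have hww : w * w = J := Real.mul_self_sqrt (by linarith)
  rw [hPe] at c1 c2
  rw [hPe'] at d1 d2
  have hrr : r * r = q := Real.mul_self_sqrt (by linarith)
  have hrr' : r' * r' = q' := Real.mul_self_sqrt (by linarith)
  have hr0 : 0 < r := by linarith
  have hr0' : 0 < r' := by linarith
  rw [hPe, hPe'] at hc
  have e1 : (h : ℝ) / (2 * r) - (h' : ℝ) / (2 * r') = (h * r' - h' * r) / (2 * (r * r')) := by
    field_simp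
  rw [e1, abs_div, abs_of_pos (by positivity : 0 < 2 * (r * r')), div_le_iff₀ (by positivity)] at hc
  have hrw : r * r' ≤ 4 * J := by
    have : r * r' ≤ (2 * w) * (2 * w) := mul_le_mul (by linarith) (by linarith) hr0'.le (by linarith)
    nlinarith
  have hh0 : (0 : ℝ) ≤ h := Nat.cast_nonneg h
  have hh0' : (0 : ℝ) ≤ h' := Nat.cast_nonneg h'
  have hhn : (h : ℝ) ≤ n := by exact_mod_cast hh
  have hhn' : (h' : ℝ) ≤ n := by exact_mod_cast hh'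
  have f1 : |(h : ℝ) * r' - h' * r| ≤ 8 * J / A := by
    refine hc.trans ?_
    rw [div_mul_eq_mul_div, one_mul]
    exact div_le_div_of_nonneg_right (by linarith) hA.le
  have f2 : (h : ℝ) * r' + h' * r ≤ 2 * w * (h + h') := by
    have g1 : (h : ℝ) * r' ≤ h * (2 * w) := mul_le_mul_of_nonneg_left (by linarith) hh0
    have g2 : (h' : ℝ) * r ≤ h' * (2 * w) := mul_le_mul_of_nonneg_left (by linarith) hh0'
    nlinarith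
  have f3 : 0 ≤ (h : ℝ) * r' + h' * r := by positivity
  have f4 : |(h : ℝ) ^ 2 * q' - (h' : ℝ) ^ 2 * q| ≤ 8 * J / A * (2 * w * (h + h')) := by
    have g3 : (h : ℝ) ^ 2 * q' - (h' : ℝ) ^ 2 * q = (h * r' - h' * r) * (h * r' + h' * r) := by
      rw [← hrr, ← hrr']; ring
    rw [g3, abs_mul, abs_of_nonneg f3]
    exact mul_le_mul f1 f2 f3 (by positivity)
  have h1 : (J : ℝ) ≤ j := by exact_mod_cast hj1
  have h2 : (j : ℝ) + 1 ≤ 2 * J := by exact_mod_cast hj2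
  have h1' : (J : ℝ) ≤ j' := by exact_mod_cast hj1'
  have h2' : (j' : ℝ) + 1 ≤ 2 * J := by exact_mod_cast hj2'
  have key : ∀ (m i : ℕ), m ≤ n → (i : ℝ) + 1 ≤ 2 * J →
      0 ≤ (m : ℝ) ^ 2 * ((i + ϑ) ^ 2 / R) ∧ (m : ℝ) ^ 2 * ((i + ϑ) ^ 2 / R) ≤ 1 / 2 := by
    intro m i hm hi
    refine ⟨by positivity, ?_⟩
    have k1 : (m : ℝ) ≤ n := by exact_mod_cast hm
    have k2 : (m : ℝ) ^ 2 ≤ (n : ℝ) ^ 2 := by
      exact pow_le_pow_left₀ (Nat.cast_nonneg m) k1 2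
    have k3 : ((i : ℝ) + ϑ) ^ 2 ≤ (2 * (J : ℝ)) ^ 2 :=
      pow_le_pow_left₀ (by positivity) (by linarith) 2
    have k4 : (m : ℝ) ^ 2 * ((i : ℝ) + ϑ) ^ 2 ≤ (n : ℝ) ^ 2 * (2 * (J : ℝ)) ^ 2 :=
      mul_le_mul k2 k3 (by positivity) (by positivity)
    rw [← mul_div_assoc, div_le_iff₀ hR0]
    nlinarith
  obtain ⟨p0, p1⟩ := key h j' hh h2'
  obtain ⟨p0', p1'⟩ := key h' j hh' h2
  have e2 : 2 * ((h : ℝ) ^ 2 * (j' + ϑ) - (h' : ℝ) ^ 2 * (j + ϑ)) =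
      ((h : ℝ) ^ 2 * q' - (h' : ℝ) ^ 2 * q) + ((h : ℝ) ^ 2 * ((j' + ϑ) ^ 2 / R)
        - (h' : ℝ) ^ 2 * ((j + ϑ) ^ 2 / R)) := by
    rw [hq, hq', qj, qj]; ring
  have e3 : |(h : ℝ) ^ 2 * ((j' + ϑ) ^ 2 / R) - (h' : ℝ) ^ 2 * ((j + ϑ) ^ 2 / R)| ≤ 1 / 2 := by
    rw [abs_le]; constructor <;> linarith
  have e4 : 8 * (J : ℝ) / A * (2 * w * (h + h')) = 2 * (8 * (J * w) * (h + h') / A) := by
    field_simp
  have e5 : |2 * ((h : ℝ) ^ 2 * (j' + ϑ) - (h' : ℝ) ^ 2 * (j + ϑ))| ≤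
      2 * (8 * (J * w) * (h + h') / A) + 1 / 2 := by
    rw [e2]
    refine (abs_add_le _ _).trans ?_
    rw [← e4]
    exact add_le_add f4 e3
  rw [abs_mul, abs_of_pos (by norm_num : (0 : ℝ) < 2)] at e5
  linarith

end MP5f3550
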