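import Pool.Agent.Lib.MP_5f3550_nt.Defs

/-!
# Row sq-D2: pairs `(j, j')` for a coprime pair `(s, r)`
-/

namespace MP5f3550

open Finset

theorem sqD2_aux (J m : ℕ) (hm : 1 ≤ m) (A : Finset ℕ) (hA : A ⊆ Finset.Ico J (2 * J))
    (hd : ∀ x ∈ A, ∀ y ∈ A, (m : ℤ) ∣ (x : ℤ) - y) : (A.card : ℝ) ≤ (J : ℝ) / m + 1 := by
  have h1 : A.card ≤ (Finset.range (J / m + 1)).card := by
    refine Finset.card_le_card_of_injOn (fun x => (x - J) / m) ?_ ?_
    · intro x hx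
      have h2 := Finset.mem_Ico.1 (hA hx)
      rw [Finset.coe_range, Set.mem_Iio]
      have h3 : (x - J) / m ≤ J / m := Nat.div_le_div_right (by omega)
      exact Nat.lt_succ_of_le h3
    · intro x hx y hy hxy
      have h2 := Finset.mem_Ico.1 (hA hx)
      have h3 := Finset.mem_Ico.1 (hA hy)
      simp only at hxy
      have e1 := Nat.div_add_mod (x - J) m
      have e2 := Nat.div_add_mod (y - J) m
      have e3 := Nat.mod_lt (x - J) hm
      have e4 := Nat.mod_lt (y - J) hm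
      rw [hxy] at e1
      obtain ⟨k, hk⟩ := hd x hx y hy
      set w := m * ((y - J) / m) with hw
      have h5 : (x : ℤ) - y = ((x - J) % m : ℕ) - (((y - J) % m : ℕ) : ℤ) := by omega
      have h6 : |(x : ℤ) - y| < m := by
        rw [abs_lt]
        constructor <;> omega
      have h7 : (x : ℤ) - y = 0 := Int.eq_zero_of_abs_lt_dvd ⟨k, hk⟩ h6
      omega
  rw [Finset.card_range] at h1
  have h2 : (A.card : ℝ) ≤ ((J / m + 1 : ℕ) : ℝ) := by exact_mod_cast h1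
  refine h2.trans ?_
  push_cast
  have : ((J / m : ℕ) : ℝ) ≤ (J : ℝ) / m := Nat.cast_div_le
  linarith

theorem sqD2_core (J a b : ℕ) (ha : 1 ≤ a) (hco : Nat.Coprime a b) (F : Finset (ℕ × ℕ))
    (pr : ℕ × ℕ → ℕ) (pr' : ℕ × ℕ → ℕ) (hF : ∀ p ∈ F, pr p ∈ Finset.Ico J (2 * J))
    (hinj : ∀ p ∈ F, ∀ q ∈ F, pr p = pr q → pr' p = pr' q → p = q)
    (h : ∀ p ∈ F, ∀ q ∈ F, (a : ℤ) ^ 2 * ((pr' p : ℤ) - pr' q) = (b : ℤ) ^ 2 * ((pr p : ℤ) - pr q)) :
    (F.card : ℝ) ≤ (J : ℝ) / (a : ℝ) ^ 2 + 1 := by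
  have hinj2 : Set.InjOn pr (F : Set (ℕ × ℕ)) := by
    intro p hp q hq hpq
    refine hinj p hp q hq hpq ?_
    have h1 := h p hp q hq
    rw [hpq, sub_self, mul_zero] at h1
    have ha2 : (a : ℤ) ^ 2 ≠ 0 := by positivity
    have h2 : (pr' p : ℤ) - pr' q = 0 := by
      rcases mul_eq_zero.1 h1 with h3 | h3
      · exact absurd h3 ha2
      · exact h3
    omega
  have h1 := Finset.card_image_of_injOn hinj2
  rw [← h1]
  have h2 := sqD2_aux J (a ^ 2) (Nat.one_le_pow _ _ ha) (F.image pr) (by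
    intro x hx
    obtain ⟨p, hp, rfl⟩ := Finset.mem_image.1 hx
    exact hF p hp) (by
    intro x hx y hy
    obtain ⟨p, hp, rfl⟩ := Finset.mem_image.1 hx
    obtain ⟨q, hq, rfl⟩ := Finset.mem_image.1 hy
    have h3 := h p hp q hq
    have h4 : (a : ℤ) ^ 2 ∣ (b : ℤ) ^ 2 * ((pr p : ℤ) - pr q) := ⟨_, h3.symm⟩
    have h5 : IsCoprime ((a : ℤ) ^ 2) ((b : ℤ) ^ 2) :=
      (Nat.isCoprime_iff_coprime.2 hco).pow
    push_cast
    exact h5.dvd_of_dvd_mul_left h4)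
  push_cast at h2
  exact h2

/-- The number of `(j, j')` in the box with `s² j' - r² j = k`: `j` lies in one residue class
modulo `s²` and determines `j'`, and symmetrically. -/
theorem pair_count_eq (J s r : ℕ) (hs : 1 ≤ s) (hr : 1 ≤ r) (hco : Nat.Coprime s r) (k : ℤ) :
    ((((Finset.Ico J (2 * J)) ×ˢ (Finset.Ico J (2 * J))).filter
      (fun p : ℕ × ℕ => (s : ℤ) ^ 2 * p.2 - (r : ℤ) ^ 2 * p.1 = k)).card : ℝ)
      ≤ (J : ℝ) / ((max s r : ℕ) : ℝ) ^ 2 + 1 := by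
  rcases le_total r s with hrs | hrs
  · rw [max_eq_left hrs]
    refine sqD2_core J s r hs hco _ Prod.fst Prod.snd ?_ ?_ ?_
    · intro p hp
      exact (Finset.mem_product.1 (Finset.mem_filter.1 hp).1).1
    · intro p _ q _ h1 h2
      exact Prod.ext h1 h2
    · intro p hp q hq
      have h1 := (Finset.mem_filter.1 hp).2
      have h2 := (Finset.mem_filter.1 hq).2
      linear_combination h1 - h2
  · rw [max_eq_right hrs]
    refine sqD2_core J r s hr hco.symm _ Prod.snd Prod.fst ?_ ?_ ?_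
    · intro p hp
      exact (Finset.mem_product.1 (Finset.mem_filter.1 hp).1).2
    · intro p _ q _ h1 h2
      exact Prod.ext h2 h1
    · intro p hp q hq
      have h1 := (Finset.mem_filter.1 hp).2
      have h2 := (Finset.mem_filter.1 hq).2
      linear_combination h2 - h1

open Classical in
/-- The number of `(j, j')` with `|s² (j' + ϑ) - r² (j + ϑ)| ≤ T`: at most `2 T + 1` values of
`k = s² j' - r² j` are possible. -/
theorem pair_count (J s r : ℕ) (hs : 1 ≤ s) (hr : 1 ≤ r) (hco : Nat.Coprime s r) (ϑ T : ℝ)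
    (hT : 0 ≤ T) :
    ((((Finset.Ico J (2 * J)) ×ˢ (Finset.Ico J (2 * J))).filter
      (fun p : ℕ × ℕ => |(s : ℝ) ^ 2 * (p.2 + ϑ) - (r : ℝ) ^ 2 * (p.1 + ϑ)| ≤ T)).card : ℝ)
      ≤ (2 * T + 1) * ((J : ℝ) / ((max s r : ℕ) : ℝ) ^ 2 + 1) := by
  set c : ℝ := ((s : ℝ) ^ 2 - (r : ℝ) ^ 2) * ϑ with hc
  set F := ((Finset.Ico J (2 * J)) ×ˢ (Finset.Ico J (2 * J))).filter
      (fun p : ℕ × ℕ => |(s : ℝ) ^ 2 * (p.2 + ϑ) - (r : ℝ) ^ 2 * (p.1 + ϑ)| ≤ T) with hF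
  set K : Finset ℤ := Finset.Icc ⌈-T - c⌉ ⌊T - c⌋ with hK
  set φ : ℕ × ℕ → ℤ := fun p => (s : ℤ) ^ 2 * p.2 - (r : ℤ) ^ 2 * p.1 with hφ
  have hmap : ∀ p ∈ F, φ p ∈ K := by
    intro p hp
    have h1 := (Finset.mem_filter.1 hp).2
    rw [abs_le] at h1
    have h2 : ((φ p : ℤ) : ℝ) = (s : ℝ) ^ 2 * (p.2 + ϑ) - (r : ℝ) ^ 2 * (p.1 + ϑ) - c := by
      simp only [hφ, hc]
      push_cast
      ring
    rw [hK, Finset.mem_Icc]
    refine ⟨Int.ceil_le.2 ?_, Int.le_floor.2 ?_⟩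
    · rw [h2]; linarith [h1.1]
    · rw [h2]; linarith [h1.2]
  have hcK : (K.card : ℝ) ≤ 2 * T + 1 := by
    rw [hK, Int.card_Icc]
    have h1 := Int.floor_le (T - c)
    have h2 := Int.le_ceil (-T - c)
    have h4 : (((⌊T - c⌋ + 1 - ⌈-T - c⌉).toNat : ℤ) : ℝ) ≤ 2 * T + 1 := by
      rcases le_total 0 (⌊T - c⌋ + 1 - ⌈-T - c⌉) with h3 | h3
      · rw [Int.toNat_of_nonneg h3]
        push_cast
        linarith
      · rw [Int.toNat_eq_zero.2 h3]
        push_cast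
        linarith
    exact_mod_cast h4
  have hfib : ∀ k ∈ K, ((F.filter (fun p => φ p = k)).card : ℝ) ≤
      (J : ℝ) / ((max s r : ℕ) : ℝ) ^ 2 + 1 := by
    intro k _
    refine le_trans ?_ (pair_count_eq J s r hs hr hco k)
    have : F.filter (fun p => φ p = k) ⊆ ((Finset.Ico J (2 * J)) ×ˢ (Finset.Ico J (2 * J))).filter
      (fun p : ℕ × ℕ => (s : ℤ) ^ 2 * p.2 - (r : ℤ) ^ 2 * p.1 = k) := by
      intro p hp
      rw [Finset.mem_filter] at hp ⊢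
      exact ⟨(Finset.mem_filter.1 hp.1).1, hp.2⟩
    exact_mod_cast Finset.card_le_card this
  have h0 : F.card = ∑ k ∈ K, (F.filter (fun p => φ p = k)).card :=
    Finset.card_eq_sum_card_fiberwise hmap
  rw [h0, Nat.cast_sum]
  calc ∑ k ∈ K, ((F.filter (fun p => φ p = k)).card : ℝ)
      ≤ ∑ k ∈ K, ((J : ℝ) / ((max s r : ℕ) : ℝ) ^ 2 + 1) := Finset.sum_le_sum hfib
    _ = K.card * ((J : ℝ) / ((max s r : ℕ) : ℝ) ^ 2 + 1) := by rw [Finset.sum_const, nsmul_eq_mul]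
    _ ≤ (2 * T + 1) * ((J : ℝ) / ((max s r : ℕ) : ℝ) ^ 2 + 1) :=
        mul_le_mul_of_nonneg_right hcK (by positivity)

end MP5f3550
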