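import Pool.Agent.Lib.MP_5f3550_nt.Defs

/-!
# Row sq-D3: the sum over `(g, s, r)`
-/

namespace MP5f3550

open Finset

/-- `∑_{s, r ≤ L} f (max s r) ≤ ∑_{m ≤ L} 2 m f m` for `f ≥ 0`. -/
theorem sum_max (L : ℕ) (f : ℕ → ℝ) (hf : ∀ m, 0 ≤ f m) :
    ∑ s ∈ Finset.Icc 1 L, ∑ r ∈ Finset.Icc 1 L, f (max s r)
      ≤ ∑ m ∈ Finset.Icc 1 L, 2 * (m : ℝ) * f m := by
  induction L with
  | zero => simp
  | succ L ih =>
    have h1 : ∑ s ∈ Finset.Icc 1 L, ∑ r ∈ Finset.Icc 1 (L + 1), f (max s r)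
        = ∑ s ∈ Finset.Icc 1 L, ∑ r ∈ Finset.Icc 1 L, f (max s r) + (L : ℝ) * f (L + 1) := by
      have : ∀ s ∈ Finset.Icc 1 L, ∑ r ∈ Finset.Icc 1 (L + 1), f (max s r)
          = ∑ r ∈ Finset.Icc 1 L, f (max s r) + f (L + 1) := by
        intro s hs
        rw [Finset.sum_Icc_succ_top (by omega), max_eq_right (by rw [Finset.mem_Icc] at hs; omega)]
      rw [Finset.sum_congr rfl this, Finset.sum_add_distrib, Finset.sum_const, Nat.card_Icc,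
        nsmul_eq_mul]
      norm_num
    have h2 : ∑ r ∈ Finset.Icc 1 (L + 1), f (max (L + 1) r) = ((L : ℝ) + 1) * f (L + 1) := by
      have : ∀ r ∈ Finset.Icc 1 (L + 1), f (max (L + 1) r) = f (L + 1) := by
        intro r hr
        rw [max_eq_left (Finset.mem_Icc.mp hr).2]
      rw [Finset.sum_congr rfl this, Finset.sum_const, Nat.card_Icc, nsmul_eq_mul]
      norm_num
    have h3 := hf (L + 1)
    have e1 : ∑ s ∈ Finset.Icc 1 (L + 1), ∑ r ∈ Finset.Icc 1 (L + 1), f (max s r) =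
        ∑ s ∈ Finset.Icc 1 L, ∑ r ∈ Finset.Icc 1 (L + 1), f (max s r) +
          ∑ r ∈ Finset.Icc 1 (L + 1), f (max (L + 1) r) := Finset.sum_Icc_succ_top (by omega) _
    have e2 : ∑ m ∈ Finset.Icc 1 (L + 1), 2 * (m : ℝ) * f m =
        ∑ m ∈ Finset.Icc 1 L, 2 * (m : ℝ) * f m + 2 * ((L + 1 : ℕ) : ℝ) * f (L + 1) :=
      Finset.sum_Icc_succ_top (by omega) _
    rw [e1, e2, h1, h2]
    push_cast
    nlinarith

private theorem sqD3_inv_sq (n : ℕ) (hn : 1 ≤ n) :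
    ∑ g ∈ Finset.Icc 1 n, 1 / (g : ℝ) ^ 2 ≤ 2 - 1 / (n : ℝ) := by
  induction n, hn using Nat.le_induction with
  | base => norm_num
  | succ n hn ih =>
    rw [Finset.sum_Icc_succ_top (by omega)]
    have hn' : (1 : ℝ) ≤ n := by exact_mod_cast hn
    have h1 : 1 / ((n + 1 : ℕ) : ℝ) ^ 2 ≤ 1 / (n : ℝ) - 1 / ((n + 1 : ℕ) : ℝ) := by
      push_cast
      have : 1 / (n : ℝ) - 1 / ((n : ℝ) + 1) = 1 / ((n : ℝ) * (n + 1)) := by
        field_simp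
        ring
      rw [this]
      apply one_div_le_one_div_of_le (by positivity)
      nlinarith
    linarith

private theorem sqD3_inv_sqrt (n : ℕ) :
    ∑ g ∈ Finset.Icc 1 n, 1 / Real.sqrt g ≤ 2 * Real.sqrt n := by
  induction n with
  | zero => simp
  | succ n ih =>
    rw [Finset.sum_Icc_succ_top (by omega)]
    have h0 : 0 < Real.sqrt ((n + 1 : ℕ) : ℝ) := Real.sqrt_pos.mpr (by positivity)
    have h1 : Real.sqrt (n : ℝ) ≤ Real.sqrt ((n + 1 : ℕ) : ℝ) :=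
      Real.sqrt_le_sqrt (by push_cast; linarith)
    have h2 : Real.sqrt (n : ℝ) ^ 2 = n := Real.sq_sqrt (by positivity)
    have h3 : Real.sqrt ((n + 1 : ℕ) : ℝ) ^ 2 = n + 1 := by
      rw [Real.sq_sqrt (by positivity)]
      push_cast
      ring
    have h4 : 0 ≤ Real.sqrt (n : ℝ) := Real.sqrt_nonneg _
    have h5 : 1 / Real.sqrt ((n + 1 : ℕ) : ℝ) ≤
        2 * Real.sqrt ((n + 1 : ℕ) : ℝ) - 2 * Real.sqrt (n : ℝ) := by
      rw [div_le_iff₀ h0]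
      nlinarith
    linarith

private theorem sqD3_inner (J n g : ℕ) (B : ℝ) (hB : 0 ≤ B) (hg : 1 ≤ g) :
    ∑ s ∈ Finset.Icc 1 (n / g), ∑ r ∈ Finset.Icc 1 (n / g),
      (2 * (8 * B * ((s : ℝ) + r) / g + 1 / 4) + 1) *
        ((J : ℝ) / ((max s r : ℕ) : ℝ) ^ 2 + 1)
      ≤ (64 * B * J * n + 64 * B * (n : ℝ) ^ 3 + 3 * (n : ℝ) ^ 2) * (1 / (g : ℝ) ^ 2)
        + 6 * J * Real.sqrt n * (1 / Real.sqrt g) := by
  have hg' : (1 : ℝ) ≤ g := by exact_mod_cast hg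
  have hg0 : (0 : ℝ) < g := by linarith
  set L : ℕ := n / g with hL
  have hLn : (L : ℝ) ≤ n / g := Nat.cast_div_le
  have hL0 : (0 : ℝ) ≤ L := Nat.cast_nonneg _
  have hn0 : (0 : ℝ) ≤ n := Nat.cast_nonneg _
  have hJ0 : (0 : ℝ) ≤ J := Nat.cast_nonneg _
  -- compare with a function of the maximum
  set f : ℕ → ℝ := fun m => (32 * B * m / g + 3 / 2) * ((J : ℝ) / (m : ℝ) ^ 2 + 1) with hf
  have h1 : ∑ s ∈ Finset.Icc 1 L, ∑ r ∈ Finset.Icc 1 L,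
      (2 * (8 * B * ((s : ℝ) + r) / g + 1 / 4) + 1) *
        ((J : ℝ) / ((max s r : ℕ) : ℝ) ^ 2 + 1)
      ≤ ∑ s ∈ Finset.Icc 1 L, ∑ r ∈ Finset.Icc 1 L, f (max s r) := by
    refine Finset.sum_le_sum fun s _ => Finset.sum_le_sum fun r _ => ?_
    simp only [hf]
    refine mul_le_mul_of_nonneg_right ?_ (by positivity)
    have hs : (s : ℝ) ≤ ((max s r : ℕ) : ℝ) := by exact_mod_cast le_max_left s r
    have hr : (r : ℝ) ≤ ((max s r : ℕ) : ℝ) := by exact_mod_cast le_max_right s r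
    have h3 : 8 * B * ((s : ℝ) + r) / g ≤ 16 * B * ((max s r : ℕ) : ℝ) / g := by
      apply div_le_div_of_nonneg_right _ hg0.le
      nlinarith
    have h4 : 32 * B * ((max s r : ℕ) : ℝ) / g = 2 * (16 * B * ((max s r : ℕ) : ℝ) / g) := by
      ring
    rw [h4]
    linarith
  refine h1.trans ((sum_max L f fun m => ?_).trans ?_)
  · simp only [hf]
    positivity
  have h2 : ∀ m ∈ Finset.Icc 1 L, 2 * (m : ℝ) * f m ≤
      64 * B * J / g + 64 * B * (L : ℝ) ^ 2 / g + 3 * J * (1 / Real.sqrt m) + 3 * L := by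
    intro m hm
    rw [Finset.mem_Icc] at hm
    have hm1 : (1 : ℝ) ≤ m := by exact_mod_cast hm.1
    have hmL : (m : ℝ) ≤ L := by exact_mod_cast hm.2
    have hm0 : (0 : ℝ) < m := by linarith
    have e1 : 2 * (m : ℝ) * f m =
        64 * B * J / g + 64 * B * (m : ℝ) ^ 2 / g + 3 * J * (1 / m) + 3 * m := by
      simp only [hf]
      field_simp
      ring
    rw [e1]
    have e2 : (1 : ℝ) / m ≤ 1 / Real.sqrt m := by
      apply one_div_le_one_div_of_le (Real.sqrt_pos.mpr hm0)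
      rw [Real.sqrt_le_left hm0.le]
      nlinarith
    have e3 : 64 * B * (m : ℝ) ^ 2 / g ≤ 64 * B * (L : ℝ) ^ 2 / g := by
      apply div_le_div_of_nonneg_right _ hg0.le
      have : (m : ℝ) ^ 2 ≤ (L : ℝ) ^ 2 := by nlinarith
      nlinarith
    have e4 : 3 * (J : ℝ) * (1 / m) ≤ 3 * J * (1 / Real.sqrt m) :=
      mul_le_mul_of_nonneg_left e2 (by positivity)
    linarith
  refine (Finset.sum_le_sum h2).trans ?_
  rw [Finset.sum_add_distrib, Finset.sum_add_distrib, ← Finset.mul_sum, Finset.sum_const,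
    Nat.card_Icc, nsmul_eq_mul, Finset.sum_const, Nat.card_Icc, nsmul_eq_mul]
  have hLc : ((L + 1 - 1 : ℕ) : ℝ) = L := by norm_num
  rw [hLc]
  have hs := sqD3_inv_sqrt L
  have hsL : Real.sqrt L ≤ Real.sqrt n * (1 / Real.sqrt g) := by
    have : Real.sqrt n * (1 / Real.sqrt g) = Real.sqrt ((n : ℝ) / g) := by
      rw [Real.sqrt_div hn0]
      ring
    rw [this]
    exact Real.sqrt_le_sqrt hLn
  have a1 : (L : ℝ) * (64 * B * J / g) ≤ 64 * B * J * n * (1 / (g : ℝ) ^ 2) := by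
    calc (L : ℝ) * (64 * B * J / g) ≤ (n / g) * (64 * B * J / g) :=
          mul_le_mul_of_nonneg_right hLn (by positivity)
      _ = 64 * B * J * n * (1 / (g : ℝ) ^ 2) := by
          field_simp
  have hL3 : (L : ℝ) ^ 3 ≤ (n : ℝ) ^ 3 * (1 / g) := by
    calc (L : ℝ) ^ 3 ≤ ((n : ℝ) / g) ^ 3 := pow_le_pow_left₀ hL0 hLn 3
      _ = (n : ℝ) ^ 3 * (1 / (g : ℝ) ^ 3) := by
          field_simp
      _ ≤ (n : ℝ) ^ 3 * (1 / g) := by
          refine mul_le_mul_of_nonneg_left ?_ (by positivity)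
          apply one_div_le_one_div_of_le hg0
          nlinarith [mul_self_nonneg ((g : ℝ) - 1), mul_pos hg0 hg0]
  have hL2 : (L : ℝ) ^ 2 ≤ (n : ℝ) ^ 2 * (1 / (g : ℝ) ^ 2) := by
    calc (L : ℝ) ^ 2 ≤ ((n : ℝ) / g) ^ 2 := pow_le_pow_left₀ hL0 hLn 2
      _ = (n : ℝ) ^ 2 * (1 / (g : ℝ) ^ 2) := by
          field_simp
  have a2 : (L : ℝ) * (64 * B * (L : ℝ) ^ 2 / g) ≤ 64 * B * (n : ℝ) ^ 3 * (1 / (g : ℝ) ^ 2) := by
    calc (L : ℝ) * (64 * B * (L : ℝ) ^ 2 / g) = 64 * B / g * (L : ℝ) ^ 3 := by ring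
      _ ≤ 64 * B / g * ((n : ℝ) ^ 3 * (1 / g)) := mul_le_mul_of_nonneg_left hL3 (by positivity)
      _ = 64 * B * (n : ℝ) ^ 3 * (1 / (g : ℝ) ^ 2) := by
          field_simp
  have a3 : 3 * (J : ℝ) * ∑ i ∈ Finset.Icc 1 L, 1 / Real.sqrt i ≤
      6 * J * Real.sqrt n * (1 / Real.sqrt g) := by
    calc 3 * (J : ℝ) * ∑ i ∈ Finset.Icc 1 L, 1 / Real.sqrt i ≤ 3 * J * (2 * Real.sqrt L) :=
          mul_le_mul_of_nonneg_left hs (by positivity)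
      _ ≤ 3 * J * (2 * (Real.sqrt n * (1 / Real.sqrt g))) := by
          refine mul_le_mul_of_nonneg_left ?_ (by positivity)
          linarith
      _ = 6 * J * Real.sqrt n * (1 / Real.sqrt g) := by ring
  have a4 : (L : ℝ) * (3 * L) ≤ 3 * (n : ℝ) ^ 2 * (1 / (g : ℝ) ^ 2) := by
    nlinarith
  have a5 : (64 * B * J * n + 64 * B * (n : ℝ) ^ 3 + 3 * (n : ℝ) ^ 2) * (1 / (g : ℝ) ^ 2) =
      64 * B * J * n * (1 / (g : ℝ) ^ 2) + 64 * B * (n : ℝ) ^ 3 * (1 / (g : ℝ) ^ 2) +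
        3 * (n : ℝ) ^ 2 * (1 / (g : ℝ) ^ 2) := by ring
  rw [a5]
  linarith

/-- The sum of all the bounds.  With `m = max s r`, `s + r ≤ 2 m`, the inner sum is at most
`∑_{m ≤ n/g} (64 B J / g + 64 B m² / g + 3 J / m + 3 m)`, and `∑_{m ≤ L} 1 / m ≤ 2 √L`,
`∑ 1 / g² ≤ 2`, `∑_{g ≤ n} 1 / √g ≤ 2 √n`. -/
theorem gsum (J n : ℕ) (B : ℝ) (hB : 0 ≤ B) (hJ : 1 ≤ J) (hn : 1 ≤ n) :
    ∑ g ∈ Finset.Icc 1 n, ∑ s ∈ Finset.Icc 1 (n / g), ∑ r ∈ Finset.Icc 1 (n / g),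
      (2 * (8 * B * ((s : ℝ) + r) / g + 1 / 4) + 1) *
        ((J : ℝ) / ((max s r : ℕ) : ℝ) ^ 2 + 1)
      ≤ 200 * (1 + B) * ((J : ℝ) * n + (n : ℝ) ^ 3) := by
  have hn' : (1 : ℝ) ≤ n := by exact_mod_cast hn
  have hJ0 : (0 : ℝ) ≤ J := Nat.cast_nonneg _
  have h1 : ∀ g ∈ Finset.Icc 1 n, ∑ s ∈ Finset.Icc 1 (n / g), ∑ r ∈ Finset.Icc 1 (n / g),
      (2 * (8 * B * ((s : ℝ) + r) / g + 1 / 4) + 1) *
        ((J : ℝ) / ((max s r : ℕ) : ℝ) ^ 2 + 1)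
      ≤ (64 * B * J * n + 64 * B * (n : ℝ) ^ 3 + 3 * (n : ℝ) ^ 2) * (1 / (g : ℝ) ^ 2)
        + 6 * J * Real.sqrt n * (1 / Real.sqrt g) := fun g hg =>
    sqD3_inner J n g B hB (Finset.mem_Icc.mp hg).1
  refine (Finset.sum_le_sum h1).trans ?_
  rw [Finset.sum_add_distrib, ← Finset.mul_sum, ← Finset.mul_sum]
  have h2 : ∑ g ∈ Finset.Icc 1 n, 1 / (g : ℝ) ^ 2 ≤ 2 := by
    have h3 := sqD3_inv_sq n hn
    have : 0 ≤ 1 / (n : ℝ) := by positivity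
    linarith
  have h3 := sqD3_inv_sqrt n
  have h4 : Real.sqrt (n : ℝ) * Real.sqrt n = n := Real.mul_self_sqrt (by positivity)
  have h5 : (64 * B * J * n + 64 * B * (n : ℝ) ^ 3 + 3 * (n : ℝ) ^ 2) *
      ∑ g ∈ Finset.Icc 1 n, 1 / (g : ℝ) ^ 2 ≤
      (64 * B * J * n + 64 * B * (n : ℝ) ^ 3 + 3 * (n : ℝ) ^ 2) * 2 :=
    mul_le_mul_of_nonneg_left h2 (by positivity)
  have h6 : 6 * (J : ℝ) * Real.sqrt n * ∑ g ∈ Finset.Icc 1 n, 1 / Real.sqrt g ≤ 12 * J * n := by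
    calc 6 * (J : ℝ) * Real.sqrt n * ∑ g ∈ Finset.Icc 1 n, 1 / Real.sqrt g
        ≤ 6 * J * Real.sqrt n * (2 * Real.sqrt n) := mul_le_mul_of_nonneg_left h3 (by positivity)
      _ = 12 * J * (Real.sqrt n * Real.sqrt n) := by ring
      _ = 12 * J * n := by rw [h4]
  have h7 : (n : ℝ) ^ 2 ≤ (n : ℝ) ^ 3 := by nlinarith [mul_nonneg (by linarith : (0 : ℝ) ≤ n - 1) (sq_nonneg (n : ℝ))]
  have h8 : 0 ≤ (J : ℝ) * n := by positivity
  have h9 : 0 ≤ (n : ℝ) ^ 3 := by positivity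
  have h10 : 0 ≤ B * ((J : ℝ) * n) := by positivity
  have h11 : 0 ≤ B * (n : ℝ) ^ 3 := by positivity
  nlinarith

end MP5f3550
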