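import Pool.Agent.Lib.MP_5f3550_nt.SqD1
import Pool.Agent.Lib.MP_5f3550_nt.SqD2
import Pool.Agent.Lib.MP_5f3550_nt.SqD3

/-!
# Row sq-D4: the number of close pairs
-/

namespace MP5f3550

open Finset

open Classical in
/-- the pairs `(j, j')` for given `(s, r)` and bound `T` -/
private noncomputable def sqD4_box (J s r : ℕ) (ϑ T : ℝ) : Finset (ℕ × ℕ) :=
  ((Finset.Ico J (2 * J)) ×ˢ (Finset.Ico J (2 * J))).filter
      (fun p : ℕ × ℕ => |(s : ℝ) ^ 2 * (p.2 + ϑ) - (r : ℝ) ^ 2 * (p.1 + ϑ)| ≤ T)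

/-- Write `g = gcd h h'`, `h = g s`, `h' = g r`.  By `close_int`, `|s² (j' + ϑ) - r² (j + ϑ)| ≤ T`
with `T = 8 B (s + r) / g + 1 / 4`, `B = J √J / A`; then `pair_count` and `gsum`. -/
theorem close_card (R ϑ A : ℝ) (J n : ℕ) (hJ : 1 ≤ J) (hn : 1 ≤ n)
    (hϑ0 : 0 ≤ ϑ) (hϑ1 : ϑ < 1) (hA : 0 < A)
    (hR : 8 * (n : ℝ) ^ 2 * (J : ℝ) ^ 2 ≤ R) :
    ((Close R ϑ A J n).card : ℝ)
      ≤ 200 * (1 + J * Real.sqrt J / A) * ((J : ℝ) * n + (n : ℝ) ^ 3) := by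
  classical
  set B : ℝ := J * Real.sqrt J / A with hB
  have hB0 : 0 ≤ B := by positivity
  set T : ℕ → ℕ → ℕ → ℝ := fun g s r => 8 * B * ((s : ℝ) + r) / g + 1 / 4 with hT
  set big : Finset ((ℕ × ℕ) × (ℕ × ℕ)) :=
    (Finset.Icc 1 n).biUnion fun g => (Finset.Icc 1 (n / g)).biUnion fun s =>
      ((Finset.Icc 1 (n / g)).filter fun r => Nat.Coprime s r).biUnion fun r =>
        (sqD4_box J s r ϑ (T g s r)).image fun p => ((p.1, g * s), (p.2, g * r)) with hbig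
  have hsub : Close R ϑ A J n ⊆ big := by
    intro p hp
    obtain ⟨⟨j, h⟩, ⟨j', h'⟩⟩ := p
    rw [Close, Finset.mem_filter] at hp
    simp only [Idx, Finset.mem_product, Finset.mem_Ico, Finset.mem_Icc, freq] at hp
    obtain ⟨⟨⟨⟨hj1, hj2⟩, ⟨hh1, hh2⟩⟩, ⟨⟨hj1', hj2'⟩, ⟨hh1', hh2'⟩⟩⟩, hc⟩ := hp
    have hci := close_int R ϑ A J n j j' h h' hJ hn hϑ0 hϑ1 hA hR hj1 hj2 hj1' hj2' hh2 hh2' hc
    set g := Nat.gcd h h' with hg
    have hg0 : 0 < g := Nat.gcd_pos_of_pos_left _ hh1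
    obtain ⟨s, hs⟩ : g ∣ h := Nat.gcd_dvd_left _ _
    obtain ⟨r, hr⟩ : g ∣ h' := Nat.gcd_dvd_right _ _
    have hs1 : 1 ≤ s := by
      rcases Nat.eq_zero_or_pos s with h0 | h0
      · rw [h0, mul_zero] at hs; omega
      · exact h0
    have hr1 : 1 ≤ r := by
      rcases Nat.eq_zero_or_pos r with h0 | h0
      · rw [h0, mul_zero] at hr; omega
      · exact h0
    have hco : Nat.Coprime s r := by
      have h1 : Nat.gcd h h' = g * Nat.gcd s r := by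
        conv_lhs => rw [hs, hr]
        rw [Nat.gcd_mul_left]
      rw [← hg] at h1
      exact Nat.eq_of_mul_eq_mul_left hg0 (by rw [mul_one]; exact h1.symm)
    have hgn : g ≤ n := by
      calc g = g * 1 := (mul_one g).symm
        _ ≤ g * s := Nat.mul_le_mul_left _ hs1
        _ = h := hs.symm
        _ ≤ n := hh2
    have hsn : s ≤ n / g := by
      rw [Nat.le_div_iff_mul_le hg0, mul_comm, ← hs]
      exact hh2
    have hrn : r ≤ n / g := by
      rw [Nat.le_div_iff_mul_le hg0, mul_comm, ← hr]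
      exact hh2'
    have hgR : (1 : ℝ) ≤ g := by exact_mod_cast hg0
    have hgR0 : (0 : ℝ) < g := by linarith
    have hbound : |(s : ℝ) ^ 2 * (j' + ϑ) - (r : ℝ) ^ 2 * (j + ϑ)| ≤ T g s r := by
      have e1 : (h : ℝ) = g * s := by exact_mod_cast hs
      have e2 : (h' : ℝ) = g * r := by exact_mod_cast hr
      have e3 : (h : ℝ) ^ 2 * (j' + ϑ) - (h' : ℝ) ^ 2 * (j + ϑ) =
          (g : ℝ) ^ 2 * ((s : ℝ) ^ 2 * (j' + ϑ) - (r : ℝ) ^ 2 * (j + ϑ)) := by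
        rw [e1, e2]; ring
      rw [e3, abs_mul, abs_of_nonneg (by positivity : (0 : ℝ) ≤ (g : ℝ) ^ 2)] at hci
      have e4 : 8 * ((J : ℝ) * Real.sqrt J) * ((h : ℝ) + h') / A + 1 / 4 =
          (g : ℝ) ^ 2 * (8 * B * ((s : ℝ) + r) / g) + 1 / 4 := by
        rw [hB, e1, e2]
        field_simp
      rw [e4] at hci
      have e5 : (g : ℝ) ^ 2 * (8 * B * ((s : ℝ) + r) / g) + 1 / 4 ≤ (g : ℝ) ^ 2 * T g s r := by
        rw [hT]
        have : (1 : ℝ) ≤ (g : ℝ) ^ 2 := one_le_pow₀ hgR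
        nlinarith
      exact le_of_mul_le_mul_left (hci.trans e5) (by positivity)
    rw [hbig]
    simp only [Finset.mem_biUnion, Finset.mem_Icc, Finset.mem_filter, Finset.mem_image]
    refine ⟨g, ⟨hg0, hgn⟩, s, ⟨hs1, hsn⟩, r, ⟨⟨hr1, hrn⟩, hco⟩, (j, j'), ?_, ?_⟩
    · simp only [sqD4_box, Finset.mem_filter, Finset.mem_product, Finset.mem_Ico]
      exact ⟨⟨⟨hj1, hj2⟩, ⟨hj1', hj2'⟩⟩, hbound⟩
    · simp only [Prod.mk.injEq, true_and]
      exact ⟨hs.symm, hr.symm⟩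
  have hT0 : ∀ g s r, 0 ≤ T g s r := by
    intro g s r
    rw [hT]
    positivity
  have hcard : (big.card : ℝ) ≤ ∑ g ∈ Finset.Icc 1 n, ∑ s ∈ Finset.Icc 1 (n / g),
      ∑ r ∈ Finset.Icc 1 (n / g), (2 * T g s r + 1) * ((J : ℝ) / ((max s r : ℕ) : ℝ) ^ 2 + 1) := by
    rw [hbig]
    refine (Nat.cast_le.2 Finset.card_biUnion_le).trans ?_
    rw [Nat.cast_sum]
    refine Finset.sum_le_sum fun g _ => ?_
    refine (Nat.cast_le.2 Finset.card_biUnion_le).trans ?_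
    rw [Nat.cast_sum]
    refine Finset.sum_le_sum fun s hs => ?_
    refine (Nat.cast_le.2 Finset.card_biUnion_le).trans ?_
    rw [Nat.cast_sum]
    have h1 : ∀ r ∈ (Finset.Icc 1 (n / g)).filter fun r => Nat.Coprime s r,
        (((sqD4_box J s r ϑ (T g s r)).image fun p => ((p.1, g * s), (p.2, g * r))).card : ℝ) ≤
          (2 * T g s r + 1) * ((J : ℝ) / ((max s r : ℕ) : ℝ) ^ 2 + 1) := by
      intro r hr
      simp only [Finset.mem_filter, Finset.mem_Icc] at hr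
      refine (Nat.cast_le.2 Finset.card_image_le).trans ?_
      exact pair_count J s r (Finset.mem_Icc.1 hs).1 hr.1.1 hr.2 ϑ (T g s r) (hT0 g s r)
    refine (Finset.sum_le_sum h1).trans ?_
    refine Finset.sum_le_sum_of_subset_of_nonneg (Finset.filter_subset _ _) fun r _ _ => ?_
    have := hT0 g s r
    positivity
  refine (Nat.cast_le.2 (Finset.card_le_card hsub)).trans (hcard.trans ?_)
  exact gsum J n B hB0 hJ hn

end MP5f3550
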