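import Pool.Agent.Lib.MP_5f3550_nt.Defs

/-!
# Row sq-E1: a point of the progression in the window gives a sum of two squares
-/

namespace MP5f3550

open Finset

/-- With `u = κ + n`: `P u ≥ t - c ≥ 0`, `b = ⌈s⌉ + n = s + u ≥ 0`,
`a² + b² = X + √(√X) P u + u²`, and `u² ≤ (t / P)² ≤ (c / 4) √(√X)`. -/
theorem cover {X c t P s κ : ℝ} {a : ℕ} {n : ℤ} (hX : 0 < X) (hc : 0 < c) (ht : c ≤ t)
    (hm : 0 < X - (a : ℝ) ^ 2) (hs : s = Real.sqrt (X - (a : ℝ) ^ 2))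
    (hP : P = 2 * s / Real.sqrt (Real.sqrt X)) (hκ : κ = (⌈s⌉ : ℝ) - s)
    (hn : |t - 5 * c / 8 - P * (κ + n)| ≤ 3 * c / 8)
    (ht2 : (t / P) ^ 2 ≤ c / 4 * Real.sqrt (Real.sqrt X)) :
    ∃ b : ℕ, X + (t - c) * Real.sqrt (Real.sqrt X) ≤ (a : ℝ) ^ 2 + (b : ℝ) ^ 2 ∧
      (a : ℝ) ^ 2 + (b : ℝ) ^ 2 ≤ X + t * Real.sqrt (Real.sqrt X) := by
  have hsX : 0 < Real.sqrt (Real.sqrt X) := Real.sqrt_pos.2 (Real.sqrt_pos.2 hX)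
  have hs0 : 0 < s := by rw [hs]; exact Real.sqrt_pos.2 hm
  have hs2 : s ^ 2 = X - (a : ℝ) ^ 2 := by rw [hs]; exact Real.sq_sqrt hm.le
  have hP0 : 0 < P := by rw [hP]; positivity
  have hPs : P * Real.sqrt (Real.sqrt X) = 2 * s := by
    rw [hP]
    field_simp
  obtain ⟨h1, h2⟩ := abs_le.1 hn
  set u : ℝ := κ + n with hu
  have hPu1 : t - c ≤ P * u := by linarith
  have hPu2 : P * u ≤ t - c / 4 := by linarith
  have hu0 : 0 ≤ u := by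
    by_contra hcon
    push Not at hcon
    have := mul_neg_of_pos_of_neg hP0 hcon
    linarith
  have hb : ((⌈s⌉ + n : ℤ) : ℝ) = s + u := by
    push_cast
    rw [hu, hκ]
    ring
  have hb0 : (0 : ℤ) ≤ ⌈s⌉ + n := by
    have h3 : (0 : ℝ) ≤ ((⌈s⌉ + n : ℤ) : ℝ) := by rw [hb]; linarith
    exact_mod_cast h3
  have hbn : (((⌈s⌉ + n).toNat : ℕ) : ℝ) = s + u := by
    rw [← hb]
    have h4 : (((⌈s⌉ + n).toNat : ℕ) : ℤ) = ⌈s⌉ + n := Int.toNat_of_nonneg hb0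
    exact_mod_cast congrArg (Int.cast : ℤ → ℝ) h4
  have hmain : (a : ℝ) ^ 2 + (((⌈s⌉ + n).toNat : ℕ) : ℝ) ^ 2 =
      X + P * u * Real.sqrt (Real.sqrt X) + u ^ 2 := by
    rw [hbn]
    have e1 : P * u * Real.sqrt (Real.sqrt X) = 2 * s * u := by
      rw [← hPs]
      ring
    rw [e1]
    linear_combination hs2
  have hut : u ≤ t / P := by
    rw [le_div_iff₀ hP0]
    linarith
  have hu2 : u ^ 2 ≤ c / 4 * Real.sqrt (Real.sqrt X) :=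
    (pow_le_pow_left₀ hu0 hut 2).trans ht2
  refine ⟨(⌈s⌉ + n).toNat, ?_, ?_⟩
  · rw [hmain]
    have h5 := mul_le_mul_of_nonneg_right hPu1 hsX.le
    nlinarith [sq_nonneg u]
  · rw [hmain]
    have h5 := mul_le_mul_of_nonneg_right hPu2 hsX.le
    linarith

/-- The period: for `a = ⌊√X⌋ - j` the number `2 √(X - a²) / X^(1/4)` is `Pj`. -/
theorem Pj_eq (X : ℝ) (j : ℕ) (hX : 1 ≤ X) (hj : j ≤ ⌊Real.sqrt X⌋₊) (hj1 : 1 ≤ j) :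
    0 < X - ((⌊Real.sqrt X⌋₊ - j : ℕ) : ℝ) ^ 2 ∧
    Pj (Real.sqrt X) (Real.sqrt X - ⌊Real.sqrt X⌋₊) j
      = 2 * Real.sqrt (X - ((⌊Real.sqrt X⌋₊ - j : ℕ) : ℝ) ^ 2) / Real.sqrt (Real.sqrt X) := by
  have hX0 : 0 ≤ X := by linarith
  have hR1 : 1 ≤ Real.sqrt X := by
    rw [show (1 : ℝ) = Real.sqrt 1 by simp]
    exact Real.sqrt_le_sqrt hX
  have hR0 : 0 < Real.sqrt X := by linarith
  have hRR : Real.sqrt X ^ 2 = X := Real.sq_sqrt hX0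
  have hN : ((⌊Real.sqrt X⌋₊ : ℕ) : ℝ) ≤ Real.sqrt X := Nat.floor_le hR0.le
  have ha : ((⌊Real.sqrt X⌋₊ - j : ℕ) : ℝ) = (⌊Real.sqrt X⌋₊ : ℝ) - j := by
    rw [Nat.cast_sub hj]
  have hj1' : (1 : ℝ) ≤ j := by exact_mod_cast hj1
  have ha0 : (0 : ℝ) ≤ (⌊Real.sqrt X⌋₊ : ℝ) - j := by rw [← ha]; exact Nat.cast_nonneg _
  rw [ha]
  have hpos : 0 < X - ((⌊Real.sqrt X⌋₊ : ℝ) - j) ^ 2 := by
    nlinarith
  refine ⟨hpos, ?_⟩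
  have hq : X - ((⌊Real.sqrt X⌋₊ : ℝ) - j) ^ 2 =
      Real.sqrt X * qj (Real.sqrt X) (Real.sqrt X - ⌊Real.sqrt X⌋₊) j := by
    rw [qj]
    have e1 : Real.sqrt X * (2 * ((j : ℝ) + (Real.sqrt X - ⌊Real.sqrt X⌋₊)) -
        ((j : ℝ) + (Real.sqrt X - ⌊Real.sqrt X⌋₊)) ^ 2 / Real.sqrt X) =
        2 * Real.sqrt X * ((j : ℝ) + (Real.sqrt X - ⌊Real.sqrt X⌋₊)) -
        ((j : ℝ) + (Real.sqrt X - ⌊Real.sqrt X⌋₊)) ^ 2 := by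
      field_simp
    rw [e1]
    linear_combination (-1 : ℝ) * hRR
  rw [Pj, hq, Real.sqrt_mul hR0.le]
  have hRs : Real.sqrt (Real.sqrt X) ≠ 0 := (Real.sqrt_pos.2 hR0).ne'
  field_simp

end MP5f3550
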