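import Pool.Agent.Lib.MP_5f3550_nt.SqB3
import Pool.Agent.Lib.MP_5f3550_nt.SqC3
import Pool.Agent.Lib.MP_5f3550_nt.SqD4
import Pool.Agent.Lib.MP_5f3550_nt.SqE1

/-!
# Row sq-E2: the exponential sum is large on the uncovered set
-/

namespace MP5f3550

open Finset MeasureTheory

/-- The uncovered set in the variable `t = (Y - X) / X^(1/4)`. -/
def Unc (X c A : ℝ) : Set ℝ :=
  {t | c ≤ t ∧ t ≤ A ∧ ∀ a b : ℕ, ¬ (X + (t - c) * Real.sqrt (Real.sqrt X) ≤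
      (a : ℝ) ^ 2 + (b : ℝ) ^ 2 ∧
      (a : ℝ) ^ 2 + (b : ℝ) ^ 2 ≤ X + t * Real.sqrt (Real.sqrt X))}

theorem sqE2_outside (X c A : ℝ) (J : ℕ) (hX : 1 ≤ X) (hc0 : 0 < c) (hJ : 1 ≤ J)
    (hR : 2 * (J : ℝ) + 1 ≤ Real.sqrt X)
    (hA : A ^ 2 ≤ c * J * Real.sqrt (Real.sqrt X)) (t : ℝ) (ht : t ∈ Unc X c A)
    (j : ℕ) (hj1 : J ≤ j) (hj2 : j < 2 * J) (k : ℤ) :
    c / (16 * Real.sqrt J) ≤ |(t - 5 * c / 8) / Pj (Real.sqrt X) (Real.sqrt X - ⌊Real.sqrt X⌋₊) j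
      - ((⌈Real.sqrt (X - ((⌊Real.sqrt X⌋₊ - j : ℕ) : ℝ) ^ 2)⌉ : ℝ)
        - Real.sqrt (X - ((⌊Real.sqrt X⌋₊ - j : ℕ) : ℝ) ^ 2)) - k| := by
  obtain ⟨ht1, ht2, ht3⟩ := ht
  have hX0 : 0 < X := by linarith
  have hsX : 0 ≤ Real.sqrt X := Real.sqrt_nonneg X
  have hJ1 : (1 : ℝ) ≤ J := by exact_mod_cast hJ
  have hfl : ((⌊Real.sqrt X⌋₊ : ℕ) : ℝ) ≤ Real.sqrt X := Nat.floor_le hsX
  have hfl2 : Real.sqrt X < (⌊Real.sqrt X⌋₊ : ℕ) + 1 := Nat.lt_floor_add_one _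
  have hϑ0 : 0 ≤ Real.sqrt X - (⌊Real.sqrt X⌋₊ : ℕ) := by linarith
  have hϑ1 : Real.sqrt X - (⌊Real.sqrt X⌋₊ : ℕ) < 1 := by linarith
  have hjN : j ≤ ⌊Real.sqrt X⌋₊ := by
    apply Nat.le_floor
    have : (j : ℝ) < 2 * J := by exact_mod_cast hj2
    linarith
  obtain ⟨hm, hPj⟩ := Pj_eq X j hX hjN (hJ.trans hj1)
  obtain ⟨hP1, hP2⟩ := Pj_bounds (Real.sqrt X) (Real.sqrt X - (⌊Real.sqrt X⌋₊ : ℕ)) J j hJ hϑ0 hϑ1
    (by linarith) hj1 hj2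
  set P := Pj (Real.sqrt X) (Real.sqrt X - (⌊Real.sqrt X⌋₊ : ℕ)) j with hPdef
  set s := Real.sqrt (X - ((⌊Real.sqrt X⌋₊ - j : ℕ) : ℝ) ^ 2) with hsdef
  have hsJ : 1 ≤ Real.sqrt J := Real.one_le_sqrt.2 hJ1
  have hsJ2 : Real.sqrt J ^ 2 = J := Real.sq_sqrt (by linarith)
  have hP0 : 0 < P := by linarith
  by_contra hcon
  push Not at hcon
  have h1 : |t - 5 * c / 8 - P * (((⌈s⌉ : ℝ) - s) + k)| ≤ 3 * c / 8 := by
    have h2 : t - 5 * c / 8 - P * (((⌈s⌉ : ℝ) - s) + k)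
        = P * ((t - 5 * c / 8) / P - ((⌈s⌉ : ℝ) - s) - k) := by
      field_simp
      ring
    rw [h2, abs_mul, abs_of_pos hP0]
    have h3 : P * |(t - 5 * c / 8) / P - ((⌈s⌉ : ℝ) - s) - k|
        ≤ (4 * Real.sqrt J) * (c / (16 * Real.sqrt J)) :=
      mul_le_mul hP2 hcon.le (abs_nonneg _) (by positivity)
    have h4 : (4 * Real.sqrt J) * (c / (16 * Real.sqrt J)) = c / 4 := by
      have : Real.sqrt J ≠ 0 := by linarith
      field_simp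
      norm_num
    linarith
  have h5 : (t / P) ^ 2 ≤ c / 4 * Real.sqrt (Real.sqrt X) := by
    have ht0 : 0 ≤ t := by linarith
    have h6 : (t / P) ^ 2 ≤ (A / (2 * Real.sqrt J)) ^ 2 := by
      have h7 : t / P ≤ A / (2 * Real.sqrt J) :=
        div_le_div₀ (by linarith) ht2 (by linarith) hP1
      exact pow_le_pow_left₀ (by positivity) h7 2
    refine h6.trans ?_
    rw [div_pow, mul_pow, hsJ2, div_le_iff₀ (by positivity)]
    nlinarith [hA]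
  obtain ⟨b, hb1, hb2⟩ := cover (n := k) hX0 hc0 ht1 hm hsdef hPj rfl h1 h5
  exact ht3 _ b ⟨hb1, hb2⟩

/-- Pointwise: on the uncovered set the exponential sum has absolute value at least `a0 * J`. -/
theorem unc_large (X c A : ℝ) (J n : ℕ) (hX : 1 ≤ X) (hc0 : 0 < c) (hc1 : c ≤ 1)
    (hJ : 1 ≤ J) (hn1 : 32 * Real.sqrt J / c ≤ n) (hn2 : (n : ℝ) ≤ 48 * Real.sqrt J / c - 1)
    (hR : 2 * (J : ℝ) + 1 ≤ Real.sqrt X)
    (hA : A ^ 2 ≤ c * J * Real.sqrt (Real.sqrt X)) :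
    ∃ (a0 : ℝ) (z : ℕ × ℕ → ℂ), 0 < a0 ∧ (∀ p, ‖z p‖ ≤ 200 * a0) ∧
      ∀ t ∈ Unc X c A, a0 * J ≤ ‖∑ p ∈ Idx J (n + 1), z p * Complex.exp (2 * Real.pi *
        Complex.I * (freq (Real.sqrt X) (Real.sqrt X - ⌊Real.sqrt X⌋₊) p) * t)‖ := by
  have hJ1 : (1 : ℝ) ≤ J := by exact_mod_cast hJ
  have hsJ : 1 ≤ Real.sqrt J := Real.one_le_sqrt.2 hJ1
  have hsJ0 : Real.sqrt J ≠ 0 := by linarith
  obtain ⟨a0, b, ha0, hb, hG⟩ := minorant (c / (16 * Real.sqrt J)) (by positivity)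
    (by rw [div_le_iff₀ (by positivity)]; linarith) n
    (by
      have : 2 / (c / (16 * Real.sqrt J)) = 32 * Real.sqrt J / c := by
        field_simp
        norm_num
      rw [this]; exact hn1)
    (by
      have : 3 / (c / (16 * Real.sqrt J)) = 48 * Real.sqrt J / c := by
        field_simp
        norm_num
      rw [this]; exact hn2)
  let R : ℝ := Real.sqrt X
  let ϑ : ℝ := Real.sqrt X - ⌊Real.sqrt X⌋₊
  let κ : ℕ → ℝ := fun j => (⌈Real.sqrt (X - ((⌊Real.sqrt X⌋₊ - j : ℕ) : ℝ) ^ 2)⌉ : ℝ)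
        - Real.sqrt (X - ((⌊Real.sqrt X⌋₊ - j : ℕ) : ℝ) ^ 2)
  let ph : ℕ × ℕ → ℝ := fun p => - (2 * Real.pi * p.2 * (5 * c / 8 / Pj R ϑ p.1 + κ p.1))
  refine ⟨a0, fun p => (b p.2 : ℂ) * Complex.exp ((ph p : ℝ) * Complex.I), ha0, ?_, ?_⟩
  · intro p
    rw [norm_mul, Complex.norm_exp_ofReal_mul_I, mul_one, Complex.norm_real, Real.norm_eq_abs]
    exact hb p.2
  · intro t ht
    have hterm : ∀ p : ℕ × ℕ, ((b p.2 : ℂ) * Complex.exp ((ph p : ℝ) * Complex.I)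
        * Complex.exp (2 * Real.pi * Complex.I * (freq R ϑ p) * t)).re
        = b p.2 * Real.cos (2 * Real.pi * p.2 * ((t - 5 * c / 8) / Pj R ϑ p.1 - κ p.1)) := by
      intro p
      have h1 : (b p.2 : ℂ) * Complex.exp ((ph p : ℝ) * Complex.I)
          * Complex.exp (2 * Real.pi * Complex.I * (freq R ϑ p) * t)
          = (b p.2 : ℂ) * Complex.exp (((2 * Real.pi * p.2 *
            ((t - 5 * c / 8) / Pj R ϑ p.1 - κ p.1) : ℝ) : ℂ) * Complex.I) := by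
        rw [mul_assoc, ← Complex.exp_add]
        congr 2
        simp only [ph, freq]
        push_cast
        ring
      rw [h1, Complex.re_ofReal_mul, Complex.exp_ofReal_mul_I_re]
    have hrow : ∀ j ∈ Finset.Ico J (2 * J), a0 + ∑ m ∈ Finset.Icc 1 (n + 1),
        b m * Real.cos (2 * Real.pi * m * ((t - 5 * c / 8) / Pj R ϑ j - κ j)) ≤ 0 := by
      intro j hj
      rw [Finset.mem_Ico] at hj
      exact hG _ (fun k => sqE2_outside X c A J hX hc0 hJ hR hA t ht j hj.1 hj.2 k)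
    have hsum : (∑ p ∈ Idx J (n + 1), (b p.2 : ℂ) * Complex.exp ((ph p : ℝ) * Complex.I)
        * Complex.exp (2 * Real.pi * Complex.I * (freq R ϑ p) * t)).re ≤ - (a0 * J) := by
      rw [Complex.re_sum, Finset.sum_congr rfl (fun p _ => hterm p), Idx, Finset.sum_product]
      have h2 := Finset.sum_le_sum hrow
      rw [Finset.sum_add_distrib, Finset.sum_const, Finset.sum_const_zero, Nat.card_Ico] at h2
      have h3 : ((2 * J - J : ℕ) : ℝ) = J := by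
        rw [show 2 * J - J = J by omega]
      rw [nsmul_eq_mul, h3] at h2
      linarith
    have hnorm := Complex.abs_re_le_norm (∑ p ∈ Idx J (n + 1), (b p.2 : ℂ) *
      Complex.exp ((ph p : ℝ) * Complex.I)
        * Complex.exp (2 * Real.pi * Complex.I * (freq R ϑ p) * t))
    refine le_trans ?_ hnorm
    rw [abs_of_nonpos (by nlinarith)]
    linarith

end MP5f3550
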