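import Pool.Agent.Lib.MP_5f3550_nt.SqE2

/-!
# Row sq-E2b: the measure of the uncovered set
Chebyshev: `(a0 J)^2 volume (Unc) ≤ ∫_0^A |S|^2`, then `meansq` (with `Idx J (n + 1)`, `freq`) and
`close_card` for `Close R ϑ A J (n + 1)`.
-/

namespace MP5f3550

open Finset MeasureTheory

/-- Chebyshev for a continuous function. -/
theorem sqE2b_cheb (S : ℝ → ℂ) (hS : Continuous S) (U : Set ℝ) (A ε M : ℝ) (hA : 0 < A)
    (hε : 0 < ε) (hU : ∀ t ∈ U, 0 < t ∧ t ≤ A ∧ ε ≤ ‖S t‖ ^ 2)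
    (hM : ∫ t in (0 : ℝ)..A, ‖S t‖ ^ 2 ≤ M) :
    volume U ≤ ENNReal.ofReal (M / ε) := by
  have hc : Continuous fun t => ‖S t‖ ^ 2 := (hS.norm).pow 2
  have hint : Integrable (fun t => ‖S t‖ ^ 2) (volume.restrict (Set.Ioc 0 A)) :=
    (intervalIntegrable_iff_integrableOn_Ioc_of_le hA.le).mp (hc.intervalIntegrable 0 A)
  have h1 := mul_meas_ge_le_integral_of_nonneg (μ := volume.restrict (Set.Ioc 0 A))
    (f := fun t => ‖S t‖ ^ 2) (Filter.Eventually.of_forall fun t => by positivity) hint ε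
  rw [← intervalIntegral.integral_of_le hA.le] at h1
  have h2 : volume U ≤ (volume.restrict (Set.Ioc 0 A)) {t | ε ≤ ‖S t‖ ^ 2} := by
    rw [Measure.restrict_apply' measurableSet_Ioc]
    refine measure_mono fun t ht => ?_
    obtain ⟨h3, h4, h5⟩ := hU t ht
    exact ⟨h5, h3, h4⟩
  refine h2.trans ?_
  have h3 : (volume.restrict (Set.Ioc 0 A)).real {t | ε ≤ ‖S t‖ ^ 2} ≤ M / ε := by
    rw [le_div_iff₀ hε, mul_comm]
    exact h1.trans hM
  rw [← ofReal_measureReal (measure_ne_top _ _)]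
  exact ENNReal.ofReal_le_ofReal h3

/-- The measure bound. -/
theorem unc_measure (X c A : ℝ) (J n : ℕ) (hX : 1 ≤ X) (hc0 : 0 < c) (hc1 : c ≤ 1)
    (hA0 : 0 < A)
    (hJ : 1 ≤ J) (hn1 : 32 * Real.sqrt J / c ≤ n) (hn2 : (n : ℝ) ≤ 48 * Real.sqrt J / c - 1)
    (hR : 8 * ((n : ℝ) + 1) ^ 2 * (J : ℝ) ^ 2 ≤ Real.sqrt X)
    (hA : A ^ 2 ≤ c * J * Real.sqrt (Real.sqrt X)) :
    volume (Unc X c A) ≤ ENNReal.ofReal (300 * A * (200 : ℝ) ^ 2 *
      (200 * (1 + J * Real.sqrt J / A) * ((J : ℝ) * (n + 1) + ((n : ℝ) + 1) ^ 3)) /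
        (J : ℝ) ^ 2) := by
  have hJ1 : (1 : ℝ) ≤ J := by exact_mod_cast hJ
  have hn0 : (0 : ℝ) ≤ n := Nat.cast_nonneg n
  have hR2 : 2 * (J : ℝ) + 1 ≤ Real.sqrt X := by
    refine le_trans ?_ hR
    have h1 : (1 : ℝ) ≤ ((n : ℝ) + 1) ^ 2 := by nlinarith
    have h2 : (J : ℝ) ≤ (J : ℝ) ^ 2 := by nlinarith
    have h3 : 0 ≤ (((n : ℝ) + 1) ^ 2 - 1) * (J : ℝ) ^ 2 :=
      mul_nonneg (by linarith) (sq_nonneg _)
    nlinarith
  obtain ⟨a0, z, ha0, hz, hlarge⟩ := unc_large X c A J n hX hc0 hc1 hJ hn1 hn2 hR2 hA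
  set ϑ : ℝ := Real.sqrt X - ⌊Real.sqrt X⌋₊ with hϑ
  set R : ℝ := Real.sqrt X with hRdef
  have hϑ0 : 0 ≤ ϑ := by
    rw [hϑ]
    exact sub_nonneg.mpr (Nat.floor_le (Real.sqrt_nonneg X))
  have hϑ1 : ϑ < 1 := by
    rw [hϑ]
    have := Nat.lt_floor_add_one R
    linarith
  have hcard := close_card R ϑ A J (n + 1) hJ (by omega) hϑ0 hϑ1 hA0
    (by push_cast; exact hR)
  have hms := meansq (Idx J (n + 1)) (freq R ϑ) z A (200 * a0) hA0 (by positivity)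
    (fun p _ => hz p)
  have hcont : Continuous fun t : ℝ => ∑ p ∈ Idx J (n + 1), z p *
      Complex.exp (2 * Real.pi * Complex.I * (freq R ϑ p) * t) := by
    fun_prop
  have hε : 0 < (a0 * J) ^ 2 := by positivity
  have hM : ∫ t in (0 : ℝ)..A, ‖∑ p ∈ Idx J (n + 1), z p *
      Complex.exp (2 * Real.pi * Complex.I * (freq R ϑ p) * t)‖ ^ 2 ≤
      300 * A * (200 * a0) ^ 2 *
        (200 * (1 + J * Real.sqrt J / A) * ((J : ℝ) * (n + 1) + ((n : ℝ) + 1) ^ 3)) := by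
    refine hms.trans (mul_le_mul_of_nonneg_left ?_ (by positivity))
    have h1 : ((((Idx J (n + 1)) ×ˢ (Idx J (n + 1))).filter
        (fun p => |freq R ϑ p.1 - freq R ϑ p.2| ≤ 1 / A)).card : ℝ) =
        ((Close R ϑ A J (n + 1)).card : ℝ) := by
      unfold Close
      congr!
    refine (le_of_eq ?_).trans (hcard.trans (le_of_eq ?_))
    · convert h1
    · push_cast
      ring
  have hfin := sqE2b_cheb _ hcont (Unc X c A) A ((a0 * J) ^ 2) _ hA0 hε (fun t ht => by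
    refine ⟨lt_of_lt_of_le hc0 ht.1, ht.2.1, ?_⟩
    exact pow_le_pow_left₀ (by positivity) (hlarge t ht) 2) hM
  refine hfin.trans (le_of_eq ?_)
  congr 1
  have hJ0 : (J : ℝ) ≠ 0 := by positivity
  have ha1 : a0 ≠ 0 := ha0.ne'
  field_simp

end MP5f3550
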