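import Pool.Agent.Lib.MP_5f3550_nt.SqE2b

/-!
# Row sq-E3: choice of the parameters
-/

namespace MP5f3550

open Finset MeasureTheory

/-- The exceptional set in `[X, X + H]`. -/
def Exc (X c H : ℝ) : Set ℝ :=
  {Y | X ≤ Y ∧ Y ≤ X + H ∧ ∀ a b : ℕ, ¬ (Y - c * Y ^ (1 / 4 : ℝ) ≤ (a : ℝ) ^ 2 + (b : ℝ) ^ 2 ∧
    (a : ℝ) ^ 2 + (b : ℝ) ^ 2 ≤ Y)}

/-- The final estimate, with `B = A ^ (2/3)`. -/
theorem sqE3_final {A B c J N : ℝ} (hB1 : 1 ≤ B) (hA : A = B * Real.sqrt B) (hc0 : 0 < c)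
    (hc1 : c ≤ 1) (hJ1 : B / c ≤ J) (hJ2 : J ≤ 2 * B / c) (hN0 : 0 ≤ N)
    (hN : N ≤ 48 * Real.sqrt J / c) :
    300 * A * (200 : ℝ) ^ 2 * (200 * (1 + J * Real.sqrt J / A) * (J * N + N ^ 3)) / J ^ 2
      ≤ 10 ^ 240 / c ^ 4 * B := by
  have hB0 : 0 < B := by linarith
  have hBJ : B ≤ J := le_trans (by rw [le_div_iff₀ hc0]; nlinarith) hJ1
  have hJ0 : 0 < J := by linarith
  have hs0 : 0 < Real.sqrt J := Real.sqrt_pos.2 hJ0
  have hs : Real.sqrt J ^ 2 = J := Real.sq_sqrt hJ0.le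
  have hb0 : 0 < Real.sqrt B := Real.sqrt_pos.2 hB0
  have hbs : Real.sqrt B ≤ Real.sqrt J := Real.sqrt_le_sqrt hBJ
  have hA0 : 0 < A := by rw [hA]; positivity
  set s := Real.sqrt J with hsdef
  -- `J N + N ^ 3 ≤ 2 * 48 ^ 3 * J * s / c ^ 3`
  have h1 : J * N + N ^ 3 ≤ 221184 * (J * s) / c ^ 3 := by
    have e1 : J * N ≤ J * (48 * s / c) := mul_le_mul_of_nonneg_left hN hJ0.le
    have e2 : N ^ 3 ≤ (48 * s / c) ^ 3 := pow_le_pow_left₀ hN0 hN 3
    have e3 : J * (48 * s / c) ≤ 48 * (J * s) / c ^ 3 := by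
      rw [show J * (48 * s / c) = 48 * (J * s) / c by ring]
      rw [div_le_div_iff₀ hc0 (by positivity)]
      have : c ^ 3 ≤ c := by nlinarith [mul_pos hc0 hc0, mul_pos (mul_pos hc0 hc0) hc0]
      exact mul_le_mul_of_nonneg_left this (by positivity)
    have e4 : (48 * s / c) ^ 3 = 110592 * (J * s) / c ^ 3 := by
      rw [div_pow, mul_pow, ← hs]
      ring
    calc J * N + N ^ 3 ≤ 48 * (J * s) / c ^ 3 + 110592 * (J * s) / c ^ 3 := by
          rw [e4] at e2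
          linarith
      _ = 110640 * (J * s) / c ^ 3 := by ring
      _ ≤ 221184 * (J * s) / c ^ 3 := by
          apply div_le_div_of_nonneg_right _ (by positivity)
          have : 0 < J * s := by positivity
          nlinarith
  have h2 : 300 * A * (200 : ℝ) ^ 2 * (200 * (1 + J * s / A) * (J * N + N ^ 3)) / J ^ 2
      ≤ 300 * A * (200 : ℝ) ^ 2 * (200 * (1 + J * s / A) * (221184 * (J * s) / c ^ 3)) / J ^ 2 := by
    apply div_le_div_of_nonneg_right _ (by positivity)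
    apply mul_le_mul_of_nonneg_left _ (by positivity)
    exact mul_le_mul_of_nonneg_left h1 (by positivity)
  refine h2.trans ?_
  have h3 : 300 * A * (200 : ℝ) ^ 2 * (200 * (1 + J * s / A) * (221184 * (J * s) / c ^ 3)) / J ^ 2
      = 530841600000000 * (A / s + J) / c ^ 3 := by
    have hsne : s ≠ 0 := hs0.ne'
    rw [← hs]
    field_simp
    ring
  rw [h3]
  have h4 : A / s ≤ B := by
    rw [div_le_iff₀ hs0, hA]
    exact mul_le_mul_of_nonneg_left hbs hB0.le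
  have h5 : A / s + J ≤ 3 * B / c := by
    have : B ≤ B / c := by rw [le_div_iff₀ hc0]; nlinarith
    calc A / s + J ≤ B / c + 2 * B / c := by linarith
      _ = 3 * B / c := by ring
  calc 530841600000000 * (A / s + J) / c ^ 3
      ≤ 530841600000000 * (3 * B / c) / c ^ 3 := by
        apply div_le_div_of_nonneg_right _ (by positivity)
        linarith
    _ = 1592524800000000 / c ^ 4 * B := by field_simp; ring
    _ ≤ 10 ^ 240 / c ^ 4 * B := by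
        apply mul_le_mul_of_nonneg_right _ hB0.le
        apply div_le_div_of_nonneg_right _ (by positivity)
        norm_num

/-- The size conditions. -/
theorem sqE3_size {X A B c J N : ℝ} (hX : 10 ^ 240 ≤ X) (hc : X ^ (-(1 / 50) : ℝ) ≤ c)
    (hA1 : 1 ≤ A) (hA : A ≤ X ^ (3 / 16 : ℝ)) (hB : B = A ^ (2 / 3 : ℝ))
    (hJ1 : B / c ≤ J) (hJ2 : J ≤ 2 * B / c) (hN0 : 0 ≤ N)
    (hN : N ≤ 48 * Real.sqrt J / c) :
    8 * N ^ 2 * J ^ 2 ≤ Real.sqrt X ∧ A ^ 2 ≤ c * J * Real.sqrt (Real.sqrt X) := by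
  have hX0 : 0 < X := lt_of_lt_of_le (by norm_num) hX
  have hc0 : 0 < c := lt_of_lt_of_le (Real.rpow_pos_of_pos hX0 _) hc
  have hA0 : 0 < A := by linarith
  have hB0 : 0 < B := by rw [hB]; exact Real.rpow_pos_of_pos hA0 _
  have hJ0 : 0 < J := lt_of_lt_of_le (by positivity) hJ1
  have hs : Real.sqrt J ^ 2 = J := Real.sq_sqrt hJ0.le
  have hB3 : B ^ 3 = A ^ 2 := by
    rw [hB, ← Real.rpow_natCast (A ^ (2 / 3 : ℝ)) 3, ← Real.rpow_mul hA0.le,
      ← Real.rpow_natCast A 2]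
    norm_num
  constructor
  · have e1 : N ^ 2 ≤ (48 * Real.sqrt J / c) ^ 2 := pow_le_pow_left₀ hN0 hN 2
    have e2 : (48 * Real.sqrt J / c) ^ 2 = 2304 * J / c ^ 2 := by
      rw [div_pow, mul_pow, hs]
      ring
    have e3 : J ^ 3 ≤ (2 * B / c) ^ 3 := pow_le_pow_left₀ hJ0.le hJ2 3
    have e4 : (2 * B / c) ^ 3 = 8 * A ^ 2 / c ^ 3 := by
      rw [div_pow, mul_pow, hB3]
      norm_num
    have e5 : 8 * N ^ 2 * J ^ 2 ≤ 147456 * (A ^ 2 / c ^ 5) := by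
      calc 8 * N ^ 2 * J ^ 2 ≤ 8 * (2304 * J / c ^ 2) * J ^ 2 := by
            rw [e2] at e1
            exact mul_le_mul_of_nonneg_right (by linarith) (by positivity)
        _ = 18432 / c ^ 2 * J ^ 3 := by ring
        _ ≤ 18432 / c ^ 2 * (8 * A ^ 2 / c ^ 3) := by
            rw [e4] at e3
            exact mul_le_mul_of_nonneg_left e3 (by positivity)
        _ = 147456 * (A ^ 2 / c ^ 5) := by field_simp; ring
    have e6 : A ^ 2 ≤ X ^ (3 / 8 : ℝ) := by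
      calc A ^ 2 ≤ (X ^ (3 / 16 : ℝ)) ^ 2 := pow_le_pow_left₀ hA0.le hA 2
        _ = X ^ (3 / 8 : ℝ) := by
            rw [← Real.rpow_natCast (X ^ (3 / 16 : ℝ)) 2, ← Real.rpow_mul hX0.le]
            norm_num
    have e7 : X ^ (-(1 / 10) : ℝ) ≤ c ^ 5 := by
      calc X ^ (-(1 / 10) : ℝ) = (X ^ (-(1 / 50) : ℝ)) ^ 5 := by
            rw [← Real.rpow_natCast (X ^ (-(1 / 50) : ℝ)) 5, ← Real.rpow_mul hX0.le]
            norm_num
        _ ≤ c ^ 5 := pow_le_pow_left₀ (Real.rpow_nonneg hX0.le _) hc 5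
    have e8 : A ^ 2 / c ^ 5 ≤ X ^ (19 / 40 : ℝ) := by
      rw [div_le_iff₀ (by positivity)]
      calc A ^ 2 ≤ X ^ (3 / 8 : ℝ) := e6
        _ = X ^ (19 / 40 : ℝ) * X ^ (-(1 / 10) : ℝ) := by
            rw [← Real.rpow_add hX0]
            norm_num
        _ ≤ X ^ (19 / 40 : ℝ) * c ^ 5 :=
            mul_le_mul_of_nonneg_left e7 (Real.rpow_nonneg hX0.le _)
    have e9 : (147456 : ℝ) ≤ X ^ (1 / 40 : ℝ) := by
      calc (147456 : ℝ) ≤ 10 ^ 6 := by norm_num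
        _ = (10 ^ 240 : ℝ) ^ (1 / 40 : ℝ) := by
            rw [← Real.rpow_natCast (10 : ℝ) 240, ← Real.rpow_mul (by norm_num),
              ← Real.rpow_natCast (10 : ℝ) 6]
            norm_num
        _ ≤ X ^ (1 / 40 : ℝ) := Real.rpow_le_rpow (by norm_num) hX (by norm_num)
    calc 8 * N ^ 2 * J ^ 2 ≤ 147456 * (A ^ 2 / c ^ 5) := e5
      _ ≤ X ^ (1 / 40 : ℝ) * X ^ (19 / 40 : ℝ) :=
          mul_le_mul e9 e8 (by positivity) (Real.rpow_nonneg hX0.le _)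
      _ = Real.sqrt X := by
          rw [← Real.rpow_add hX0, Real.sqrt_eq_rpow]
          norm_num
  · have e1 : B ≤ c * J := by
      rw [div_le_iff₀ hc0] at hJ1
      linarith
    have e2 : A ^ 2 = B * A ^ (4 / 3 : ℝ) := by
      rw [hB, ← Real.rpow_add hA0, ← Real.rpow_natCast A 2]
      norm_num
    have e3 : A ^ (4 / 3 : ℝ) ≤ Real.sqrt (Real.sqrt X) := by
      calc A ^ (4 / 3 : ℝ) ≤ (X ^ (3 / 16 : ℝ)) ^ (4 / 3 : ℝ) :=
            Real.rpow_le_rpow hA0.le hA (by norm_num)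
        _ = Real.sqrt (Real.sqrt X) := by
            rw [← Real.rpow_mul hX0.le, Real.sqrt_eq_rpow, Real.sqrt_eq_rpow,
              ← Real.rpow_mul hX0.le]
            norm_num
    rw [e2]
    exact mul_le_mul e1 e3 (Real.rpow_nonneg hA0.le _) (by positivity)

/-- In the variable `t`: take `J = ⌈A ^ (2/3) / c⌉`, `n = ⌈32 √J / c⌉`. -/
theorem unc_bound : ∃ K : ℝ, 1 ≤ K ∧ ∀ X c A : ℝ, K ≤ X → X ^ (-(1 / 50) : ℝ) ≤ c → c ≤ 1 →
    1 ≤ A → A ≤ X ^ (3 / 16 : ℝ) →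
    volume (Unc X c A) ≤ ENNReal.ofReal (K / c ^ 4 * A ^ (2 / 3 : ℝ)) := by
  refine ⟨10 ^ 240, by norm_num, ?_⟩
  intro X c A hX hc hc1 hA1 hA
  have hX1 : 1 ≤ X := le_trans (by norm_num) hX
  have hX0 : 0 < X := by linarith
  have hc0 : 0 < c := lt_of_lt_of_le (Real.rpow_pos_of_pos hX0 _) hc
  have hA0 : 0 < A := by linarith
  set B := A ^ (2 / 3 : ℝ) with hB
  have hB1 : 1 ≤ B := Real.one_le_rpow hA1 (by norm_num)
  have hBc : 1 ≤ B / c := by rw [le_div_iff₀ hc0]; nlinarith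
  obtain ⟨J, hJdef⟩ : ∃ J : ℕ, J = ⌈B / c⌉₊ := ⟨_, rfl⟩
  have hJ1 : B / c ≤ J := by rw [hJdef]; exact Nat.le_ceil _
  have hJ2 : (J : ℝ) ≤ 2 * B / c := by
    have : (J : ℝ) < B / c + 1 := by rw [hJdef]; exact Nat.ceil_lt_add_one (by positivity)
    calc (J : ℝ) ≤ B / c + B / c := by linarith
      _ = 2 * B / c := by ring
  have hJR : (1 : ℝ) ≤ J := le_trans hBc hJ1
  have hJN : 1 ≤ J := by exact_mod_cast hJR
  have hs1 : 1 ≤ Real.sqrt J := by rw [Real.one_le_sqrt]; exact hJR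
  have hsc : 1 ≤ Real.sqrt J / c := by rw [le_div_iff₀ hc0]; nlinarith
  obtain ⟨n, hndef⟩ : ∃ n : ℕ, n = ⌈32 * Real.sqrt J / c⌉₊ := ⟨_, rfl⟩
  have hn1 : 32 * Real.sqrt J / c ≤ n := by rw [hndef]; exact Nat.le_ceil _
  have hn3 : (n : ℝ) < 32 * Real.sqrt J / c + 1 := by
    rw [hndef]; exact Nat.ceil_lt_add_one (by positivity)
  have hn2 : (n : ℝ) ≤ 48 * Real.sqrt J / c - 1 := by
    have e1 : 32 * Real.sqrt J / c = 32 * (Real.sqrt J / c) := by ring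
    have e2 : 48 * Real.sqrt J / c = 48 * (Real.sqrt J / c) := by ring
    rw [e1] at hn3
    rw [e2]
    linarith
  have hN : (n : ℝ) + 1 ≤ 48 * Real.sqrt J / c := by linarith
  obtain ⟨hR, hA2⟩ := sqE3_size hX hc hA1 hA hB hJ1 hJ2 (by positivity) hN
  have hAB : A = B * Real.sqrt B := by
    rw [hB, Real.sqrt_eq_rpow, ← Real.rpow_mul hA0.le, ← Real.rpow_add hA0]
    norm_num
  refine (unc_measure X c A J n hX1 hc0 hc1 hA0 hJN hn1 hn2 hR hA2).trans ?_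
  exact ENNReal.ofReal_le_ofReal
    (sqE3_final hB1 hAB hc0 hc1 hJ1 hJ2 (by positivity) hN)

end MP5f3550
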