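import Pool.Agent.Lib.MP_5f3550_nt.SqE3

/-!
# Row sq-E3b: from `t` to `Y`
-/

namespace MP5f3550

open Finset MeasureTheory

theorem SqE3b_sqrt (X : ℝ) (hX : 0 ≤ X) : Real.sqrt (Real.sqrt X) = X ^ (1 / 4 : ℝ) := by
  rw [Real.sqrt_eq_rpow, Real.sqrt_eq_rpow, ← Real.rpow_mul hX]
  norm_num

theorem SqE3b_sub (X c H : ℝ) (hX : 1 ≤ X) (hc : 0 < c) :
    Exc X c H ⊆ Set.Icc X (X + c * X ^ (1 / 4 : ℝ)) ∪
      (fun Y => Y + (-X)) ⁻¹' ((fun z => (X ^ (1 / 4 : ℝ))⁻¹ * z) ⁻¹'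
        (Unc X c (H / X ^ (1 / 4 : ℝ)))) := by
  have hT : 0 < X ^ (1 / 4 : ℝ) := Real.rpow_pos_of_pos (by linarith) _
  intro Y hY
  obtain ⟨h1, h2, h3⟩ := hY
  by_cases hlt : Y ≤ X + c * X ^ (1 / 4 : ℝ)
  · exact Or.inl ⟨h1, hlt⟩
  · right
    push Not at hlt
    have htY : X + (X ^ (1 / 4 : ℝ))⁻¹ * (Y + (-X)) * X ^ (1 / 4 : ℝ) = Y := by
      field_simp
      ring
    have htc : X + ((X ^ (1 / 4 : ℝ))⁻¹ * (Y + (-X)) - c) * X ^ (1 / 4 : ℝ) =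
        Y - c * X ^ (1 / 4 : ℝ) := by
      field_simp
      ring
    refine ⟨?_, ?_, ?_⟩
    · change c ≤ (X ^ (1 / 4 : ℝ))⁻¹ * (Y + (-X))
      rw [inv_mul_eq_div, le_div_iff₀ hT]
      linarith
    · change (X ^ (1 / 4 : ℝ))⁻¹ * (Y + (-X)) ≤ H / X ^ (1 / 4 : ℝ)
      rw [inv_mul_eq_div]
      exact div_le_div_of_nonneg_right (by linarith) hT.le
    · rintro a b ⟨ha, hb⟩
      rw [SqE3b_sqrt X (by linarith)] at ha hb
      change X + ((X ^ (1 / 4 : ℝ))⁻¹ * (Y + (-X)) - c) * X ^ (1 / 4 : ℝ) ≤ _ at ha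
      change _ ≤ X + (X ^ (1 / 4 : ℝ))⁻¹ * (Y + (-X)) * X ^ (1 / 4 : ℝ) at hb
      rw [htc] at ha
      rw [htY] at hb
      have hmono : X ^ (1 / 4 : ℝ) ≤ Y ^ (1 / 4 : ℝ) :=
        Real.rpow_le_rpow (by linarith) h1 (by norm_num)
      refine h3 a b ⟨?_, hb⟩
      have := mul_le_mul_of_nonneg_left hmono hc.le
      linarith

/-- Back to `Y = X + t X^(1/4)` (the part `t < c` has measure `c ≤ 1`). -/
theorem exc_short : ∃ K : ℝ, 1 ≤ K ∧ ∀ X c H : ℝ, K ≤ X → X ^ (-(1 / 50) : ℝ) ≤ c → c ≤ 1 →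
    X ^ (1 / 4 : ℝ) ≤ H → H ≤ X ^ (7 / 16 : ℝ) →
    volume (Exc X c H) ≤ ENNReal.ofReal (K / c ^ 4 * (H ^ (2 / 3 : ℝ) * X ^ (1 / 12 : ℝ))) := by
  obtain ⟨K, hK, h⟩ := unc_bound
  refine ⟨K + 1, by linarith, fun X c H hX hc hc1 hH hH2 => ?_⟩
  have hX1 : 1 ≤ X := by linarith
  have hX0 : 0 < X := by linarith
  have hc0 : 0 < c := (Real.rpow_pos_of_pos hX0 _).trans_le hc
  set T : ℝ := X ^ (1 / 4 : ℝ) with hTdef
  have hT : 0 < T := Real.rpow_pos_of_pos hX0 _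
  have hH0 : 0 < H := hT.trans_le hH
  have hA1 : 1 ≤ H / T := by rw [le_div_iff₀ hT]; linarith
  have hA2 : H / T ≤ X ^ (3 / 16 : ℝ) := by
    rw [div_le_iff₀ hT, hTdef, ← Real.rpow_add hX0]
    norm_num
    exact hH2
  have hU := h X c (H / T) (by linarith) hc hc1 hA1 hA2
  have hT13 : T ^ (1 / 3 : ℝ) = X ^ (1 / 12 : ℝ) := by
    rw [hTdef, ← Real.rpow_mul hX0.le]
    norm_num
  have hHT : T * (H / T) ^ (2 / 3 : ℝ) = H ^ (2 / 3 : ℝ) * X ^ (1 / 12 : ℝ) := by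
    have h2 : T = T ^ (2 / 3 : ℝ) * T ^ (1 / 3 : ℝ) := by
      rw [← Real.rpow_add hT]
      norm_num
    have h3 : T ^ (2 / 3 : ℝ) ≠ 0 := (Real.rpow_pos_of_pos hT _).ne'
    rw [Real.div_rpow hH0.le hT.le, ← hT13]
    calc T * (H ^ (2 / 3 : ℝ) / T ^ (2 / 3 : ℝ))
        = (T ^ (2 / 3 : ℝ) * T ^ (1 / 3 : ℝ)) * (H ^ (2 / 3 : ℝ) / T ^ (2 / 3 : ℝ)) := by
          rw [← h2]
      _ = _ := by field_simp
  have hTle : T ≤ H ^ (2 / 3 : ℝ) * X ^ (1 / 12 : ℝ) := by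
    rw [← hHT]
    have h4 : (1 : ℝ) ≤ (H / T) ^ (2 / 3 : ℝ) := Real.one_le_rpow hA1 (by norm_num)
    nlinarith
  have hG0 : 0 < H ^ (2 / 3 : ℝ) * X ^ (1 / 12 : ℝ) := hT.trans_le hTle
  have hc4 : 0 < c ^ 4 := by positivity
  have hc41 : c ^ 4 ≤ 1 := pow_le_one₀ hc0.le hc1
  calc volume (Exc X c H)
      ≤ volume (Set.Icc X (X + c * T)) + volume ((fun Y => Y + (-X)) ⁻¹'
          ((fun z => T⁻¹ * z) ⁻¹' (Unc X c (H / T)))) :=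
        (measure_mono (SqE3b_sub X c H hX1 hc0)).trans (measure_union_le _ _)
    _ = ENNReal.ofReal (c * T) + ENNReal.ofReal T * volume (Unc X c (H / T)) := by
        rw [Real.volume_Icc, measure_preimage_add_right,
          Real.volume_preimage_mul_left (inv_ne_zero hT.ne'), inv_inv, abs_of_pos hT]
        congr 2
        ring
    _ ≤ ENNReal.ofReal (c * T) + ENNReal.ofReal T *
          ENNReal.ofReal (K / c ^ 4 * (H / T) ^ (2 / 3 : ℝ)) := by gcongr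
    _ = ENNReal.ofReal (c * T + T * (K / c ^ 4 * (H / T) ^ (2 / 3 : ℝ))) := by
        rw [← ENNReal.ofReal_mul hT.le, ← ENNReal.ofReal_add (by positivity) (by positivity)]
    _ ≤ ENNReal.ofReal ((K + 1) / c ^ 4 * (H ^ (2 / 3 : ℝ) * X ^ (1 / 12 : ℝ))) := by
        apply ENNReal.ofReal_le_ofReal
        have e1 : T * (K / c ^ 4 * (H / T) ^ (2 / 3 : ℝ)) =
            K / c ^ 4 * (H ^ (2 / 3 : ℝ) * X ^ (1 / 12 : ℝ)) := by
          rw [← hHT]; ring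
        have e2 : c * T ≤ 1 / c ^ 4 * (H ^ (2 / 3 : ℝ) * X ^ (1 / 12 : ℝ)) := by
          have e3 : c * T ≤ H ^ (2 / 3 : ℝ) * X ^ (1 / 12 : ℝ) := by nlinarith
          have e4 : (1 : ℝ) ≤ 1 / c ^ 4 := by
            rw [le_div_iff₀ hc4]; linarith
          nlinarith
        rw [e1, add_div, add_mul]
        linarith

end MP5f3550
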