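import Pool.Agent.Lib.MP_5f3550_nt.SqE3b

/-!
# Row sq-E3c: long intervals
-/

namespace MP5f3550

open Finset MeasureTheory

private theorem sqE3c_cover (X c H h : ℝ) (hh : 0 < h) :
    Exc X c H ⊆ ⋃ i ∈ Finset.range (⌊H / h⌋₊ + 1), Exc (X + (i : ℝ) * h) c h := by
  rintro Y ⟨h1, h2, h3⟩
  have hY0 : 0 ≤ (Y - X) / h := div_nonneg (by linarith) hh.le
  have hle : (⌊(Y - X) / h⌋₊ : ℝ) ≤ (Y - X) / h := Nat.floor_le hY0
  have hlt : (Y - X) / h < (⌊(Y - X) / h⌋₊ : ℝ) + 1 := Nat.lt_floor_add_one _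
  have hle' : (⌊(Y - X) / h⌋₊ : ℝ) * h ≤ Y - X := by
    rwa [le_div_iff₀ hh] at hle
  have hlt' : Y - X < ((⌊(Y - X) / h⌋₊ : ℝ) + 1) * h := by
    rwa [div_lt_iff₀ hh] at hlt
  simp only [Set.mem_iUnion]
  refine ⟨⌊(Y - X) / h⌋₊, ?_, ?_, ?_, h3⟩
  · rw [Finset.mem_range]
    have : ⌊(Y - X) / h⌋₊ ≤ ⌊H / h⌋₊ :=
      Nat.floor_mono (div_le_div_of_nonneg_right (by linarith) hh.le)
    omega
  · linarith
  · nlinarith

/-- All lengths `X^(1/4) ≤ H ≤ X`: subdivide into intervals of length `X^(7/16)`. -/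
theorem exc_all : ∃ K : ℝ, 1 ≤ K ∧ ∀ X c H : ℝ, K ≤ X → X ^ (-(1 / 50) : ℝ) ≤ c → c ≤ 1 →
    X ^ (1 / 4 : ℝ) ≤ H → H ≤ X →
    volume (Exc X c H) ≤ ENNReal.ofReal (K / c ^ 4 *
      (H ^ (2 / 3 : ℝ) * X ^ (1 / 12 : ℝ) + H * X ^ (-(1 / 16) : ℝ))) := by
  obtain ⟨K, hK1, hK⟩ := exc_short
  refine ⟨4 * K, by linarith, ?_⟩
  intro X c H hX hc hc1 hH1 hH2
  have hXK : K ≤ X := by linarith
  have hX4 : (4 : ℝ) ≤ X := by linarith
  have hX0 : 0 < X := by linarith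
  have hc0 : 0 < c := lt_of_lt_of_le (Real.rpow_pos_of_pos hX0 _) hc
  have hKc : 0 < K / c ^ 4 := by positivity
  have hHpos : 0 < H := lt_of_lt_of_le (Real.rpow_pos_of_pos hX0 _) hH1
  by_cases hH : H ≤ X ^ (7 / 16 : ℝ)
  · refine (hK X c H hXK hc hc1 hH1 hH).trans (ENNReal.ofReal_le_ofReal ?_)
    have e1 : 0 ≤ H ^ (2 / 3 : ℝ) * X ^ (1 / 12 : ℝ) := by positivity
    have e2 : 0 ≤ H * X ^ (-(1 / 16) : ℝ) := by positivity
    have e3 : 4 * K / c ^ 4 = 4 * (K / c ^ 4) := by ring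
    rw [e3]
    nlinarith [mul_nonneg hKc.le e1, mul_nonneg hKc.le e2]
  push Not at hH
  set h : ℝ := X ^ (7 / 16 : ℝ) with hh
  have hh0 : 0 < h := Real.rpow_pos_of_pos hX0 _
  -- each piece
  have hpiece : ∀ i ∈ Finset.range (⌊H / h⌋₊ + 1),
      volume (Exc (X + (i : ℝ) * h) c h) ≤
        ENNReal.ofReal (2 * (K / c ^ 4) * X ^ (3 / 8 : ℝ)) := by
    intro i hi
    rw [Finset.mem_range] at hi
    have hi1 : (i : ℝ) ≤ H / h := by
      have h1 : (i : ℝ) ≤ (⌊H / h⌋₊ : ℝ) := by exact_mod_cast Nat.lt_succ_iff.mp hi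
      exact h1.trans (Nat.floor_le (by positivity))
    have hi2 : (i : ℝ) * h ≤ H := by rwa [le_div_iff₀ hh0] at hi1
    have hi0 : 0 ≤ (i : ℝ) * h := by positivity
    set X' : ℝ := X + (i : ℝ) * h with hX'
    have hXX' : X ≤ X' := by linarith
    have hX'2 : X' ≤ 2 * X := by linarith
    have hX'0 : 0 < X' := by linarith
    have hc' : X' ^ (-(1 / 50) : ℝ) ≤ c :=
      (Real.rpow_le_rpow_of_nonpos hX0 hXX' (by norm_num)).trans hc
    have hq : X' ^ (1 / 4 : ℝ) ≤ h := by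
      calc X' ^ (1 / 4 : ℝ) ≤ (2 * X) ^ (1 / 4 : ℝ) :=
            Real.rpow_le_rpow hX'0.le hX'2 (by norm_num)
        _ ≤ (X ^ (3 / 2 : ℝ)) ^ (1 / 4 : ℝ) := by
            refine Real.rpow_le_rpow (by positivity) ?_ (by norm_num)
            have : (3 / 2 : ℝ) = 1 / 2 + 1 := by norm_num
            rw [this, Real.rpow_add hX0, Real.rpow_one]
            refine mul_le_mul_of_nonneg_right ?_ hX0.le
            rw [← Real.sqrt_eq_rpow]
            exact Real.le_sqrt_of_sq_le (by linarith)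
        _ = X ^ (3 / 8 : ℝ) := by
            rw [← Real.rpow_mul hX0.le]; norm_num
        _ ≤ h := Real.rpow_le_rpow_of_exponent_le (by linarith) (by norm_num)
    have hr : h ≤ X' ^ (7 / 16 : ℝ) := Real.rpow_le_rpow hX0.le hXX' (by norm_num)
    refine (hK X' c h (hXK.trans hXX') hc' hc1 hq hr).trans (ENNReal.ofReal_le_ofReal ?_)
    have e1 : h ^ (2 / 3 : ℝ) = X ^ (7 / 24 : ℝ) := by
      rw [hh, ← Real.rpow_mul hX0.le]; norm_num
    have e2 : X' ^ (1 / 12 : ℝ) ≤ 2 * X ^ (1 / 12 : ℝ) := by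
      calc X' ^ (1 / 12 : ℝ) ≤ (2 * X) ^ (1 / 12 : ℝ) :=
            Real.rpow_le_rpow hX'0.le hX'2 (by norm_num)
        _ = 2 ^ (1 / 12 : ℝ) * X ^ (1 / 12 : ℝ) := Real.mul_rpow (by norm_num) hX0.le
        _ ≤ 2 * X ^ (1 / 12 : ℝ) := by
            refine mul_le_mul_of_nonneg_right ?_ (by positivity)
            calc (2 : ℝ) ^ (1 / 12 : ℝ) ≤ 2 ^ (1 : ℝ) :=
                  Real.rpow_le_rpow_of_exponent_le (by norm_num) (by norm_num)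
              _ = 2 := Real.rpow_one 2
    have e3 : X ^ (7 / 24 : ℝ) * X ^ (1 / 12 : ℝ) = X ^ (3 / 8 : ℝ) := by
      rw [← Real.rpow_add hX0]; norm_num
    rw [e1]
    have h24 : 0 ≤ X ^ (7 / 24 : ℝ) := by positivity
    calc K / c ^ 4 * (X ^ (7 / 24 : ℝ) * X' ^ (1 / 12 : ℝ))
        ≤ K / c ^ 4 * (X ^ (7 / 24 : ℝ) * (2 * X ^ (1 / 12 : ℝ))) :=
          mul_le_mul_of_nonneg_left (mul_le_mul_of_nonneg_left e2 h24) hKc.le
      _ = 2 * (K / c ^ 4) * (X ^ (7 / 24 : ℝ) * X ^ (1 / 12 : ℝ)) := by ring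
      _ = 2 * (K / c ^ 4) * X ^ (3 / 8 : ℝ) := by rw [e3]
  have hB0 : 0 ≤ 2 * (K / c ^ 4) * X ^ (3 / 8 : ℝ) := by positivity
  have hHh : 1 ≤ H / h := by
    rw [le_div_iff₀ hh0]; linarith
  have hcount : ((⌊H / h⌋₊ + 1 : ℕ) : ℝ) ≤ 2 * (H / h) := by
    push_cast
    have := Nat.floor_le (show 0 ≤ H / h by positivity)
    linarith
  have e5 : H / h * X ^ (3 / 8 : ℝ) = H * X ^ (-(1 / 16) : ℝ) := by
    have : X ^ (3 / 8 : ℝ) = X ^ (-(1 / 16) : ℝ) * h := by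
      rw [hh, ← Real.rpow_add hX0]; norm_num
    rw [this]
    field_simp
  calc volume (Exc X c H)
      ≤ volume (⋃ i ∈ Finset.range (⌊H / h⌋₊ + 1), Exc (X + (i : ℝ) * h) c h) :=
        measure_mono (sqE3c_cover X c H h hh0)
    _ ≤ ∑ i ∈ Finset.range (⌊H / h⌋₊ + 1), volume (Exc (X + (i : ℝ) * h) c h) :=
        measure_biUnion_finset_le _ _
    _ ≤ ∑ _i ∈ Finset.range (⌊H / h⌋₊ + 1),
          ENNReal.ofReal (2 * (K / c ^ 4) * X ^ (3 / 8 : ℝ)) := Finset.sum_le_sum hpiece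
    _ = ENNReal.ofReal (((⌊H / h⌋₊ + 1 : ℕ) : ℝ) * (2 * (K / c ^ 4) * X ^ (3 / 8 : ℝ))) := by
        rw [Finset.sum_const, Finset.card_range, nsmul_eq_mul,
          ENNReal.ofReal_mul (Nat.cast_nonneg _), ENNReal.ofReal_natCast]
    _ ≤ ENNReal.ofReal (4 * K / c ^ 4 *
      (H ^ (2 / 3 : ℝ) * X ^ (1 / 12 : ℝ) + H * X ^ (-(1 / 16) : ℝ))) := by
        refine ENNReal.ofReal_le_ofReal ?_
        calc ((⌊H / h⌋₊ + 1 : ℕ) : ℝ) * (2 * (K / c ^ 4) * X ^ (3 / 8 : ℝ))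
            ≤ 2 * (H / h) * (2 * (K / c ^ 4) * X ^ (3 / 8 : ℝ)) :=
              mul_le_mul_of_nonneg_right hcount hB0
          _ = 4 * K / c ^ 4 * (H / h * X ^ (3 / 8 : ℝ)) := by ring
          _ = 4 * K / c ^ 4 * (H * X ^ (-(1 / 16) : ℝ)) := by rw [e5]
          _ ≤ _ := by
              refine mul_le_mul_of_nonneg_left ?_ (by positivity)
              have : 0 ≤ H ^ (2 / 3 : ℝ) * X ^ (1 / 12 : ℝ) := by positivity
              linarith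

end MP5f3550
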